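import Mathlib

/-!
# The number of affine subspaces of the Boolean cube
-/

open Finset

namespace Pool.Agent.H59.Seth

/-- A set of points of the Boolean cube closed under the sum of three points modulo 2: the empty
set or an affine subspace. -/
def IsAff {n : ℕ} (A : Finset (Fin n → Bool)) : Prop :=
  ∀ x ∈ A, ∀ y ∈ A, ∀ z ∈ A, (fun i => xor (x i) (xor (y i) (z i))) ∈ A

/-- the bit as an element of the field with two elements -/
def b2z (u : Bool) : ZMod 2 := if u then 1 else 0

lemma b2z_inj {u v : Bool} (h : b2z u = b2z v) : u = v := by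
  revert h; revert u v; decide

lemma b2z_xor (u v : Bool) : b2z (xor u v) = b2z u + b2z v := by
  revert u v; decide

lemma b2z_decide (c : ZMod 2) : b2z (decide (c = 1)) = c := by
  revert c; decide

/-- an affine subspace from a point and n directions -/
noncomputable def affOf {n : ℕ} (p : Fin n → Bool) (v : Fin n → (Fin n → Bool)) :
    Finset (Fin n → Bool) := by
  classical
  exact univ.filter fun x => (fun i => b2z (xor (x i) (p i))) ∈
    Submodule.span (ZMod 2) (Set.range fun j => fun i => b2z (v j i))

lemma exists_affOf {n : ℕ} {A : Finset (Fin n → Bool)} (hA : IsAff A) {p : Fin n → Bool}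
    (hp : p ∈ A) : ∃ v, affOf p v = A := by
  classical
  set φ : (Fin n → Bool) → (Fin n → ZMod 2) := fun x i => b2z (xor (x i) (p i)) with hφ
  have hφinj : Function.Injective φ := by
    intro x y hxy
    funext i
    have h1 := b2z_inj (congrFun hxy i)
    revert h1
    cases x i <;> cases y i <;> cases p i <;> simp
  have hφp : φ p = 0 := by
    funext i
    simp only [hφ, Pi.zero_apply]
    cases p i <;> rfl
  let W : Submodule (ZMod 2) (Fin n → ZMod 2) :=
    { carrier := φ '' (A : Set (Fin n → Bool))
      add_mem' := by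
        rintro _ _ ⟨x, hx, rfl⟩ ⟨y, hy, rfl⟩
        refine ⟨_, hA x hx y hy p hp, ?_⟩
        funext i
        simp only [hφ, Pi.add_apply, ← b2z_xor]
        congr 1
        cases x i <;> cases y i <;> cases p i <;> rfl
      zero_mem' := ⟨p, hp, hφp⟩
      smul_mem' := by
        rintro c _ ⟨x, hx, rfl⟩
        have hc : c = 0 ∨ c = 1 := by revert c; decide
        rcases hc with rfl | rfl
        · exact ⟨p, hp, by rw [hφp, zero_smul]⟩
        · exact ⟨x, hx, by simp⟩ }
  have hfr : Module.finrank (ZMod 2) W ≤ n := by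
    have := Submodule.finrank_le W
    rwa [Module.finrank_fintype_fun_eq_card, Fintype.card_fin] at this
  set bs := Module.finBasis (ZMod 2) W with hbs
  let v' : Fin n → (Fin n → ZMod 2) := fun i =>
    if h : (i : ℕ) < Module.finrank (ZMod 2) W then (bs ⟨i, h⟩ : Fin n → ZMod 2) else 0
  have hspan : Submodule.span (ZMod 2) (Set.range v') = W := by
    apply le_antisymm
    · rw [Submodule.span_le]
      rintro _ ⟨i, rfl⟩
      simp only [v']
      split_ifs with h
      · exact (bs ⟨i, h⟩).2
      · exact W.zero_mem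
    · intro w hw
      have h1 : (⟨w, hw⟩ : W) ∈ Submodule.span (ZMod 2) (Set.range bs) := by
        rw [bs.span_eq]; trivial
      have h2 : W.subtype ⟨w, hw⟩ ∈
          Submodule.map W.subtype (Submodule.span (ZMod 2) (Set.range bs)) :=
        Submodule.mem_map_of_mem h1
      rw [Submodule.map_span] at h2
      refine Submodule.span_mono ?_ h2
      rintro _ ⟨_, ⟨j, rfl⟩, rfl⟩
      refine ⟨⟨j, lt_of_lt_of_le j.2 hfr⟩, ?_⟩
      simp only [v']
      rw [dif_pos j.2]
      rfl
  refine ⟨fun j i => decide (v' j i = 1), ?_⟩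
  have hv : (fun j => fun i => b2z (decide (v' j i = 1))) = v' := by
    funext j i
    exact b2z_decide _
  ext x
  unfold affOf
  rw [mem_filter, hv, hspan]
  constructor
  · rintro ⟨-, y, hy, hyx⟩
    have : y = x := hφinj hyx
    rw [← this]
    exact hy
  · intro hx
    exact ⟨mem_univ _, x, hx, rfl⟩

lemma exists_aff_family (n : ℕ) : ∃ 𝒜 : Finset (Finset (Fin n → Bool)),
    𝒜.card ≤ 2 ^ (n + n * n) + 1 ∧ ∀ A, IsAff A → A ∈ 𝒜 := by
  classical
  refine ⟨insert ∅ ((univ : Finset ((Fin n → Bool) × (Fin n → (Fin n → Bool)))).image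
        fun q => affOf q.1 q.2), ?_, ?_⟩
  · refine (card_insert_le _ _).trans (Nat.add_le_add_right ?_ _)
    refine card_image_le.trans (le_of_eq ?_)
    rw [card_univ, Fintype.card_prod, Fintype.card_fun, Fintype.card_fun, Fintype.card_fun]
    simp only [Fintype.card_bool, Fintype.card_fin]
    rw [← pow_mul, ← pow_add]
  · intro A hA
    rw [mem_insert]
    rcases A.eq_empty_or_nonempty with h | ⟨p, hp⟩
    · exact Or.inl h
    · right
      obtain ⟨v, hv⟩ := exists_affOf hA hp
      exact mem_image.2 ⟨(p, v), mem_univ _, hv⟩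

end Pool.Agent.H59.Seth
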