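import Pool.Agent.H59.Seth.Lift

/-!
# The CNF formula of a linear system composed with block gadgets, and the weight bound for it
-/

open Finset Pool.Agent.H73.Xor

namespace Pool.Agent.H59.Seth

/-- A clause over `n` Boolean variables: a finite set of literals, where the literal `(i, b)` is
true under the assignment `x` when `x i = b`. -/
abbrev Cl (n : ℕ) := Finset (Fin n × Bool)

/-- The assignment `x` makes some literal of the clause `C` true. -/
def Sat {n : ℕ} (x : Fin n → Bool) (C : Cl n) : Prop := ∃ l ∈ C, x l.1 = l.2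

section

variable {n m b M : ℕ} (hmb : m * b ≤ n)

/-- the variable number `β` of block `i` -/
def idx (i : Fin m) (β : Fin b) : Fin n :=
  ⟨i * b + β, lt_of_lt_of_le (by
    calc (i : ℕ) * b + β < i * b + b := Nat.add_lt_add_left β.2 _
      _ = (i + 1) * b := by ring
      _ ≤ m * b := Nat.mul_le_mul_right _ i.2) hmb⟩

/-- the blocks of an assignment -/
def blk (x : Fin n → Bool) : Fin m → (Fin b → Bool) := fun i β => x (idx hmb i β)

/-- the assignment with given blocks, `false` outside the blocks -/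
def ext (hb : 0 < b) (y : Fin m → (Fin b → Bool)) : Fin n → Bool := fun v =>
  if h : (v : ℕ) < m * b then
    y ⟨v / b, (Nat.div_lt_iff_lt_mul hb).2 h⟩ ⟨v % b, Nat.mod_lt _ hb⟩ else false

lemma blk_ext (hb : 0 < b) (y : Fin m → (Fin b → Bool)) : blk hmb (ext hb y : Fin n → Bool) = y := by
  funext i β
  unfold blk ext
  have h : ((idx hmb i β : Fin n) : ℕ) < m * b := by
    show (i : ℕ) * b + β < m * b
    calc (i : ℕ) * b + β < i * b + b := Nat.add_lt_add_left β.2 _
      _ = (i + 1) * b := by ring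
      _ ≤ m * b := Nat.mul_le_mul_right _ i.2
  rw [dif_pos h]
  have h1 : (⟨((idx hmb i β : Fin n) : ℕ) / b, (Nat.div_lt_iff_lt_mul hb).2 h⟩ : Fin m) = i := by
    apply Fin.ext
    show ((i : ℕ) * b + β) / b = i
    rw [mul_comm, Nat.mul_add_div hb, Nat.div_eq_of_lt β.2, add_zero]
  have h2 : (⟨((idx hmb i β : Fin n) : ℕ) % b, Nat.mod_lt _ hb⟩ : Fin b) = β := by
    apply Fin.ext
    show ((i : ℕ) * b + β) % b = β
    rw [mul_comm, Nat.mul_add_mod, Nat.mod_eq_of_lt β.2]
  rw [h1, h2]

/-- the variables of a row -/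
def vars (a : Fin m → Fin M → ZMod 2) (j : Fin M) : Finset (Fin n) :=
  ((univ.filter fun i => a i j ≠ 0) ×ˢ (univ : Finset (Fin b))).image fun p => idx hmb p.1 p.2

lemma card_vars_le (a : Fin m → Fin M → ZMod 2) (j : Fin M) {k : ℕ}
    (h : (univ.filter fun i => a i j ≠ 0).card ≤ k) : (vars hmb a j).card ≤ k * b := by
  refine card_image_le.trans ?_
  rw [card_product, card_univ, Fintype.card_fin]
  exact Nat.mul_le_mul_right _ h

/-- the clause excluding the values of `x` on the variables of row `j` -/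
def clauseOf (a : Fin m → Fin M → ZMod 2) (j : Fin M) (x : Fin n → Bool) : Cl n :=
  (vars hmb a j).image fun v => (v, !x v)

lemma not_sat_clauseOf {a : Fin m → Fin M → ZMod 2} {j : Fin M} {x x' : Fin n → Bool} :
    ¬ Sat x' (clauseOf hmb a j x) ↔ ∀ v ∈ vars hmb a j, x' v = x v := by
  unfold Sat clauseOf
  constructor
  · intro h v hv
    by_contra hne
    apply h
    refine ⟨(v, !x v), mem_image.2 ⟨v, hv, rfl⟩, ?_⟩
    simp only
    revert hne
    cases x' v <;> cases x v <;> simp
  · rintro h ⟨l, hl, hxl⟩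
    rw [mem_image] at hl
    obtain ⟨v, hv, rfl⟩ := hl
    simp only at hxl
    rw [h v hv] at hxl
    revert hxl
    cases x v <;> simp

/-- the composed formula -/
def blockCNF (a : Fin m → Fin M → ZMod 2) (rhs : Fin M → ZMod 2)
    (g : Fin m → (Fin b → Bool) → ZMod 2) : Finset (Cl n) :=
  (univ.filter fun p : Fin M × (Fin n → Bool) =>
    app a (gv g (blk hmb p.2)) p.1 ≠ rhs p.1).image fun p => clauseOf hmb a p.1 p.2

lemma blockCNF_width {a : Fin m → Fin M → ZMod 2} {rhs : Fin M → ZMod 2}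
    {g : Fin m → (Fin b → Bool) → ZMod 2} {k : ℕ}
    (h : ∀ j, (univ.filter fun i => a i j ≠ 0).card ≤ k) :
    ∀ C ∈ blockCNF hmb a rhs g, C.card ≤ k * b := by
  intro C hC
  rw [blockCNF, mem_image] at hC
  obtain ⟨⟨j, y⟩, -, rfl⟩ := hC
  exact card_image_le.trans (card_vars_le hmb a j (h j))

lemma blockCNF_card {a : Fin m → Fin M → ZMod 2} {rhs : Fin M → ZMod 2}
    {g : Fin m → (Fin b → Bool) → ZMod 2} {k : ℕ}
    (h : ∀ j, (univ.filter fun i => a i j ≠ 0).card ≤ k) :
    (blockCNF hmb a rhs g).card ≤ M * 2 ^ (k * b) := by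
  classical
  have hsub : blockCNF hmb a rhs g ⊆ (univ : Finset (Fin M)).biUnion fun j =>
      (vars hmb a j).powerset.image fun s => (vars hmb a j).image fun v => (v, !decide (v ∈ s)) := by
    intro C hC
    rw [blockCNF, mem_image] at hC
    obtain ⟨⟨j, y⟩, -, rfl⟩ := hC
    rw [mem_biUnion]
    refine ⟨j, mem_univ _, mem_image.2 ⟨(vars hmb a j).filter fun v => y v = true, ?_, ?_⟩⟩
    · exact mem_powerset.2 (filter_subset _ _)
    · unfold clauseOf
      refine Finset.image_congr fun v hv => ?_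
      simp only [mem_coe] at hv
      simp only [mem_filter, hv, true_and, Bool.decide_eq_true]
  refine (card_le_card hsub).trans (card_biUnion_le.trans ?_)
  calc ∑ j : Fin M, ((vars hmb a j).powerset.image fun s =>
        (vars hmb a j).image fun v => (v, !decide (v ∈ s))).card
      ≤ ∑ j : Fin M, 2 ^ (k * b) := by
        refine Finset.sum_le_sum fun j _ => card_image_le.trans ?_
        rw [card_powerset]
        exact Nat.pow_le_pow_right (by norm_num) (card_vars_le hmb a j (h j))
    _ = M * 2 ^ (k * b) := by rw [Finset.sum_const, card_univ, Fintype.card_fin, smul_eq_mul]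

lemma blockCNF_unsat {a : Fin m → Fin M → ZMod 2} {rhs : Fin M → ZMod 2}
    {g : Fin m → (Fin b → Bool) → ZMod 2}
    (ha : ∀ i, ∑ j, a i j = 0) (hb : ∑ j, rhs j ≠ 0) (x : Fin n → Bool) :
    ∃ C ∈ blockCNF hmb a rhs g, ¬ Sat x C := by
  have : ∃ j, app a (gv g (blk hmb x)) j ≠ rhs j := by
    by_contra hcon
    push Not at hcon
    apply hb
    rw [← Finset.sum_congr rfl (fun j _ => hcon j)]
    unfold app
    rw [Finset.sum_comm]
    refine Finset.sum_eq_zero fun i _ => ?_
    rw [← Finset.mul_sum, ha i, mul_zero]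
  obtain ⟨j, hj⟩ := this
  refine ⟨clauseOf hmb a j x, ?_, ?_⟩
  · rw [blockCNF, mem_image]
    exact ⟨(j, x), mem_filter.2 ⟨mem_univ _, hj⟩, rfl⟩
  · rw [not_sat_clauseOf]
    exact fun _ _ => rfl

lemma blockCNF_row {a : Fin m → Fin M → ZMod 2} {rhs : Fin M → ZMod 2}
    {g : Fin m → (Fin b → Bool) → ZMod 2} {C : Cl n} (hC : C ∈ blockCNF hmb a rhs g) :
    ∃ j : Fin M, ∀ x : Fin n → Bool, ¬ Sat x C → app a (gv g (blk hmb x)) j ≠ rhs j := by
  rw [blockCNF, mem_image] at hC
  obtain ⟨⟨j, y⟩, hp, rfl⟩ := hC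
  rw [mem_filter] at hp
  refine ⟨j, fun x hx => ?_⟩
  rw [not_sat_clauseOf] at hx
  have h1 : app a (gv g (blk hmb x)) j = app a (gv g (blk hmb y)) j := by
    unfold app
    refine Finset.sum_congr rfl fun i _ => ?_
    by_cases hi : a i j = 0
    · rw [hi, mul_zero, mul_zero]
    · have h2 : blk hmb x i = blk hmb y i := by
        funext β
        exact hx _ (mem_image.2 ⟨(i, β), mem_product.2 ⟨mem_filter.2 ⟨mem_univ _, hi⟩,
          mem_univ _⟩, rfl⟩)
      rw [gv_apply, gv_apply, h2]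
  rw [h1]
  exact hp.2

end

/-- `(1 + x) ^ m ≤ 1 + 1/40` for small `x` -/
lemma pow_small {x : ℝ} (hx : 0 ≤ x) {m : ℕ} (h : m * x ≤ 1 / 80) : (1 + x) ^ m - 1 ≤ 1 / 40 := by
  have hx1 : x ≤ 1 ∨ m = 0 := by
    rcases Nat.eq_zero_or_pos m with h0 | h0
    · exact Or.inr h0
    · left
      have : (1 : ℝ) ≤ m := by exact_mod_cast h0
      nlinarith
  rcases hx1 with hx1 | rfl
  · have h1 : 1 + (m : ℝ) * (-x) ≤ (1 + -x) ^ m := one_add_mul_le_pow (by linarith) m
    have h2 : (1 + x) ^ m * (1 + -x) ^ m ≤ 1 := by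
      rw [← mul_pow]
      refine pow_le_one₀ ?_ ?_ <;> nlinarith
    have h3 : (0 : ℝ) < (1 + x) ^ m := by positivity
    have h4 : (1 + x) ^ m * (79 / 80) ≤ 1 := by
      refine le_trans (mul_le_mul_of_nonneg_left ?_ h3.le) h2
      linarith
    linarith
  · norm_num

/-- the number of block vectors agreeing with `u` on `C` -/
lemma card_agree {m b : ℕ} (C : Finset (Fin m)) (u : Fin m → (Fin b → Bool)) :
    (univ.filter fun y : Fin m → (Fin b → Bool) => ∀ i ∈ C, y i = u i).card =
      (2 ^ b) ^ Cᶜ.card := by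
  have h1 : (univ.filter fun y : Fin m → (Fin b → Bool) => ∀ i ∈ C, y i = u i) =
      Fintype.piFinset fun i => if i ∈ C then {u i} else univ := by
    ext y
    simp only [mem_filter, mem_univ, true_and, Fintype.mem_piFinset]
    constructor
    · intro h i
      by_cases hi : i ∈ C
      · simp [hi, h i hi]
      · simp [hi]
    · intro h i hi
      have := h i
      simpa [hi] using this
  have hU : Fintype.card (Fin b → Bool) = 2 ^ b := by simp
  rw [h1, Fintype.card_piFinset]
  have h2 : ∀ i : Fin m, (if i ∈ C then ({u i} : Finset (Fin b → Bool)) else univ).card =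
      if i ∈ Cᶜ then 2 ^ b else 1 := by
    intro i
    by_cases hi : i ∈ C
    · simp [hi]
    · simp [hi]
  rw [Finset.prod_congr rfl (fun i _ => h2 i), Finset.prod_ite_mem, univ_inter,
    Finset.prod_const]

/-- the combinatorial core: parameters given -/
theorem core {n m b M : ℕ} (hmb : m * b ≤ n) (hb : 0 < b) {c L D K r k d q e : ℕ}
    (hMpos : 0 < M) {a : Fin m → Fin M → ZMod 2} (hgood : Good a c K D r k)
    (hP5 : 2 * K * (c.choose L * D ^ L) ≤ M ^ L)
    (hLc : L ≤ c) (hq4 : 4 * K * L ≤ c + 1)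
    (hev : Even q) (hq : q * 2 ^ (2 * (e + 2)) ≤ 2 ^ d) (hdb : d ≤ b)
    (he : (m : ℝ) * (1 / 2) ^ e ≤ 1 / 80)
    (𝒜 : Finset (Finset (Fin n → Bool))) (hcard : (𝒜.card * 2 ^ n + 1) * 2 ^ n < 2 ^ q) :
    ∃ F : Finset (Cl n), (∀ C ∈ F, C.card ≤ k * b) ∧ F.card ≤ M * 2 ^ (k * b) ∧
      (∀ x, ∃ C ∈ F, ¬ Sat x C) ∧
      ∀ (N : ℕ) (cell : Fin N → Finset (Fin n → Bool)) (w : Fin N → ℝ),
        (∀ t, cell t ∈ 𝒜) → (∀ t, 0 ≤ w t) →
        (∀ x, ∑ t, (if x ∈ cell t then w t else 0) = 1) →
        (∀ t, ∃ F' ⊆ F, F'.card ≤ D ∧ ∀ x ∈ cell t, ∃ C ∈ F', ¬ Sat x C) →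
        (2 : ℝ) ^ (b * m) ≤ 2 ^ (M + 2 + d * m + b * r) * ∑ t, w t := by
  classical
  have hmn : m ≤ n := (Nat.le_mul_of_pos_right m hb).trans hmb
  have : Nonempty (Fin M) := ⟨⟨0, hMpos⟩⟩
  obtain ⟨j0, s, hs, hs0, hsmax⟩ := exists_max_row a
  have hU : Fintype.card (Fin b → Bool) = 2 ^ b := by simp
  have hU2 : 2 ≤ Fintype.card (Fin b → Bool) := by
    rw [hU]
    calc 2 = 2 ^ 1 := rfl
      _ ≤ 2 ^ b := Nat.pow_le_pow_right (by norm_num) hb
  -- decompositions
  choose P hP1 hP2 hP3 using fun A : Finset (Fin m → (Fin b → Bool)) =>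
    exists_decomp (d := d) (r := r) hU2 A
  set slice : Finset (Fin n → Bool) → Finset (Fin m → (Fin b → Bool)) := fun A =>
    univ.filter fun y => ext hb y ∈ A with hslice
  set Fam : Finset (Finset (Fin m → (Fin b → Bool))) := 𝒜.biUnion (fun A => P (slice A)) ∪ {univ}
    with hFam
  -- free blocks of a piece
  have hRex : ∀ B : Finset (Fin m → (Fin b → Bool)), ∃ R : Finset (Fin m),
      (B = univ → R = univ) ∧ (B ≠ univ → (∃ R', IsPiece d B R' ∧ r ≤ R'.card) →
        IsPiece d B R ∧ r ≤ R.card) := by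
    intro B
    by_cases hB : B = univ
    · exact ⟨univ, fun _ => rfl, fun h => absurd hB h⟩
    · by_cases h : ∃ R', IsPiece d B R' ∧ r ≤ R'.card
      · obtain ⟨R', hR'⟩ := h
        exact ⟨R', fun h => absurd h hB, fun _ _ => hR'⟩
      · exact ⟨∅, fun h => absurd h hB, fun _ h' => absurd h' h⟩
  choose R hR1 hR2 using hRex
  have hpuniv : IsPiece d (univ : Finset (Fin m → (Fin b → Bool))) univ := by
    refine ⟨univ_nonempty, ?_, fun y _ y' _ i hi => absurd (mem_univ i) hi⟩
    intro C _ u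
    have h1 := card_agree (b := b) C u
    have h3 : (2 ^ b) ^ Cᶜ.card * 2 ^ (d * C.card) ≤
        (univ : Finset (Fin m → (Fin b → Bool))).card := by
      rw [card_univ, Fintype.card_fun, hU]
      calc (2 ^ b) ^ Cᶜ.card * 2 ^ (d * C.card) ≤ (2 ^ b) ^ Cᶜ.card * (2 ^ b) ^ C.card := by
            refine Nat.mul_le_mul_left _ ?_
            rw [← pow_mul]
            exact Nat.pow_le_pow_right (by norm_num) (Nat.mul_le_mul_right _ hdb)
        _ = (2 ^ b) ^ Fintype.card (Fin m) := by
            rw [← pow_add, card_compl_add_card]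
    refine le_trans (le_of_eq ?_) h3
    congr 1
    rw [← h1]
    refine congrArg Finset.card ?_
    ext y
    simp only [mem_filter, mem_univ, true_and]
  have hpiece : ∀ B ∈ Fam, B ≠ univ → IsPiece d B (R B) ∧ r ≤ (R B).card := by
    intro B hB hne
    rw [hFam, mem_union, mem_singleton] at hB
    rcases hB with hB | hB
    · rw [mem_biUnion] at hB
      obtain ⟨A, -, hBA⟩ := hB
      exact hR2 B hne (hP1 _ B hBA).2
    · exact absurd hB hne
  have hFd : ∀ B ∈ Fam, IsPiece d B (R B) := by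
    intro B hB
    by_cases hne : B = univ
    · rw [hR1 B hne, hne]; exact hpuniv
    · exact (hpiece B hB hne).1
  -- size of the family
  have hPc : ∀ A : Finset (Fin m → (Fin b → Bool)), (P A).card ≤ 2 ^ n := by
    intro A
    have h1 : (P A).card ≤ ((P A).biUnion id).card := by
      rw [Finset.card_biUnion (fun B hB B' hB' hne => hP2 A hB hB' hne)]
      calc (P A).card = ∑ B ∈ P A, 1 := by simp
        _ ≤ ∑ B ∈ P A, (id B).card := Finset.sum_le_sum fun B hB => by
            obtain ⟨R', hR', -⟩ := (hP1 A B hB).2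
            exact card_pos.2 hR'.nonempty
    refine h1.trans ((card_le_univ _).trans ?_)
    rw [Fintype.card_fun, hU, Fintype.card_fin, ← pow_mul]
    exact Nat.pow_le_pow_right (by norm_num) (by rw [mul_comm]; exact hmb)
  have hFamc : Fam.card * 2 ^ Fintype.card (Fin m) < 2 ^ q := by
    refine lt_of_le_of_lt ?_ hcard
    rw [Fintype.card_fin]
    refine Nat.mul_le_mul ?_ (Nat.pow_le_pow_right (by norm_num) hmn)
    refine (card_union_le _ _).trans ?_
    rw [card_singleton]
    refine Nat.add_le_add_right (card_biUnion_le.trans ?_) _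
    calc ∑ A ∈ 𝒜, (P (slice A)).card ≤ ∑ A ∈ 𝒜, 2 ^ n := Finset.sum_le_sum fun A _ => hPc _
      _ = 𝒜.card * 2 ^ n := by rw [Finset.sum_const, smul_eq_mul]
  obtain ⟨g, hg⟩ := exists_gadget hev hq Fam R (fun B hB => ⟨(hFd B hB).nonempty, (hFd B hB).dense⟩)
    hFamc
  set h : ℝ := (1 + (1 / 2 : ℝ) ^ e) ^ m - 1 with hh
  have hη0 : (0 : ℝ) ≤ (1 / 2) ^ e := by positivity
  have hh0 : 0 ≤ h := by
    rw [hh, sub_nonneg]
    exact one_le_pow₀ (by linarith)
  have hh40 : h ≤ 1 / 40 := pow_small hη0 he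
  have hpsr : ∀ B ∈ Fam, Psr h g B (R B) := by
    intro B hB z
    refine (card_fiber_approx (hg B hB) z).trans ?_
    refine mul_le_mul_of_nonneg_left ?_ (Nat.cast_nonneg _)
    rw [hh]
    refine sub_le_sub_right (pow_le_pow_right₀ (by linarith) ?_) _
    have := card_le_univ (R B)
    rwa [Fintype.card_fin] at this
  have huniv : Psr h g univ univ := by
    have h1 := hpsr univ (by rw [hFam]; exact mem_union_right _ (mem_singleton_self _))
    rwa [hR1 univ rfl] at h1
  set rhs : Fin M → ZMod 2 := Pi.single j0 1 with hrhs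
  refine ⟨blockCNF hmb a rhs g, blockCNF_width hmb hgood.rows, blockCNF_card hmb hgood.rows,
    blockCNF_unsat hmb hgood.even ?_, ?_⟩
  · rw [hrhs, Finset.sum_pi_single']
    simp
  intro N cell w hcell hw0 htot href
  -- the whole space may be a piece with few blocks: we treat it separately
  by_cases hrm : m < r
  · -- trivial bound
    have h1 : (1 : ℝ) ≤ ∑ t, w t := by
      rw [← htot (fun _ => false)]
      refine Finset.sum_le_sum fun t _ => ?_
      split_ifs
      · exact le_rfl
      · exact hw0 t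
    calc (2 : ℝ) ^ (b * m) ≤ 2 ^ (M + 2 + d * m + b * r) * 1 := by
          rw [mul_one]
          refine pow_le_pow_right₀ (by norm_num) ?_
          have := Nat.mul_le_mul_left b hrm.le
          omega
      _ ≤ _ := mul_le_mul_of_nonneg_left h1 (by positivity)
  push Not at hrm
  have key := weight_bound (ι := Fin N) (d := d) hgood hs hs0 hsmax (by rwa [Fintype.card_fin]) hLc
    hq4 hh0 hh40 g (fun t => P (slice (cell t))) R (fun t => slice (cell t)) w hw0
    (by
      intro t B hB
      have hBF : B ∈ Fam := by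
        rw [hFam]
        exact mem_union_left _ (mem_biUnion.2 ⟨cell t, hcell t, hB⟩)
      refine ⟨(hP1 _ B hB).1, hFd B hBF, ?_, hpsr B hBF⟩
      by_cases hne : B = univ
      · rw [hR1 B hne, card_univ, Fintype.card_fin]
        exact hrm
      · exact (hpiece B hBF hne).2)
    (fun t => hP2 _) (fun t => hP3 _) huniv
    (by
      intro y
      rw [← htot (ext hb y)]
      refine Finset.sum_congr rfl fun t _ => ?_
      have : y ∈ slice (cell t) ↔ ext hb y ∈ cell t := by simp [hslice]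
      by_cases h' : y ∈ slice (cell t)
      · rw [if_pos h', if_pos (this.1 h')]
      · rw [if_neg h', if_neg (fun h'' => h' (this.2 h''))])
    (by
      intro t
      obtain ⟨F', hF', hF'c, hF'2⟩ := href t
      choose! rowof hrow using fun C (hC : C ∈ F') => blockCNF_row hmb (hF' hC)
      refine ⟨F'.image rowof, card_image_le.trans hF'c, fun y hy => ?_⟩
      obtain ⟨C, hC, hns⟩ := hF'2 (ext hb y) (by simpa [hslice] using hy)
      refine ⟨rowof C, mem_image_of_mem _ hC, ?_⟩
      have := hrow C hC _ hns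
      rwa [blk_ext] at this)
  rw [hU, Fintype.card_fin, Fintype.card_fin] at key
  push_cast at key
  have h2 : (2 : ℝ) ^ (b * m) = (2 ^ b) ^ m := by rw [pow_mul]
  have h3 : (2 : ℝ) ^ (M + 2 + d * m + b * r) = 4 * 2 ^ M * (2 ^ (d * m) * (2 ^ b) ^ r) := by
    rw [pow_add, pow_add, pow_add, pow_mul 2 b r]; ring
  rw [h2, h3]
  exact key

end Pool.Agent.H59.Seth
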