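import Pool.Agent.H59.Seth.Param
import Pool.Agent.H59.Seth.Aff

/-!
# Two special cases: affine subspaces, and decision trees with queries from a given family
-/

open Finset

namespace Pool.Agent.H59.Seth.Cor

/-- A clause over `n` Boolean variables: a finite set of literals, where the literal `(i, b)` is
true under the assignment `x` when `x i = b`. -/
abbrev Clause (n : ℕ) := Finset (Fin n × Bool)

/-- A CNF formula over `n` Boolean variables: a finite set of clauses. -/
abbrev CNF (n : ℕ) := Finset (Clause n)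

/-- The assignment `x` satisfies the clause `C`. -/
def Satisfies {n : ℕ} (x : Fin n → Bool) (C : Clause n) : Prop := ∃ l ∈ C, x l.1 = l.2

/-- The CNF formula has no satisfying assignment. -/
def Unsat {n : ℕ} (F : CNF n) : Prop := ∀ x : Fin n → Bool, ∃ C ∈ F, ¬ Satisfies x C

/-- The CNF formula has at most `n ^ K` clauses, each with at most `K * log₂ n` literals. -/
def Small {n : ℕ} (K : ℕ) (F : CNF n) : Prop :=
  F.card ≤ n ^ K ∧ ∀ C ∈ F, C.card ≤ K * Nat.log 2 n

/-- A fractional partition of the Boolean cube into `N` nonempty cells, all with the property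
`Cell`: at every assignment the (nonnegative) weights of the cells containing it add up to one.
It refutes the CNF formula `F` locally: for every cell there are clauses `F' ⊆ F` with
`F'.card * s ≤ n` such that every assignment in the cell violates one of them. (An ordinary
partition is the case of all weights equal to one.) -/
structure FractionalPartition {n : ℕ} (Cell : Finset (Fin n → Bool) → Prop) (F : CNF n)
    (s N : ℕ) where
  cell : Fin N → Finset (Fin n → Bool)
  w : Fin N → ℝ
  mem : ∀ t, Cell (cell t)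
  nonempty : ∀ t, (cell t).Nonempty
  nonneg : ∀ t, 0 ≤ w t
  total : ∀ x : Fin n → Bool, ∑ t, (if x ∈ cell t then w t else 0) = 1
  closed : ∀ t, ∃ F' ⊆ F, F'.card * s ≤ n ∧ ∀ x ∈ cell t, ∃ C ∈ F', ¬ Satisfies x C

/-- A set of points of the Boolean cube closed under the sum of three points modulo 2; the
nonempty ones are the affine subspaces over the field with two elements. -/
def IsAffine {n : ℕ} (A : Finset (Fin n → Bool)) : Prop :=
  ∀ x ∈ A, ∀ y ∈ A, ∀ z ∈ A, (fun i => xor (x i) (xor (y i) (z i))) ∈ A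

/-- A decision tree on `n` Boolean variables, whose inner nodes query arbitrary predicates of the
assignment and whose leaves output clauses. -/
inductive DTree (n : ℕ) where
  | leaf : Clause n → DTree n
  | node : ((Fin n → Bool) → Bool) → DTree n → DTree n → DTree n

namespace DTree

/-- the number of leaves -/
def leaves {n : ℕ} : DTree n → ℕ
  | leaf _ => 1
  | node _ l r => leaves l + leaves r

/-- the depth: the largest number of queries on a branch -/
def depth {n : ℕ} : DTree n → ℕ
  | leaf _ => 0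
  | node _ l r => max (depth l) (depth r) + 1

/-- all predicates queried in the tree belong to `𝒬` -/
def QueriesIn {n : ℕ} (𝒬 : Finset ((Fin n → Bool) → Bool)) : DTree n → Prop
  | leaf _ => True
  | node q l r => q ∈ 𝒬 ∧ QueriesIn 𝒬 l ∧ QueriesIn 𝒬 r

/-- the clause output on the assignment `x` -/
def out {n : ℕ} : DTree n → (Fin n → Bool) → Clause n
  | leaf C, _ => C
  | node q l r, x => if q x then out r x else out l x

/-- on every assignment the tree outputs a clause of `F` violated by the assignment -/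
def Solves {n : ℕ} (T : DTree n) (F : CNF n) : Prop :=
  ∀ x : Fin n → Bool, T.out x ∈ F ∧ ¬ Satisfies x (T.out x)

/-- the cells of the leaves below a node with cell `A`, with the clauses at the leaves -/
def cells {n : ℕ} : DTree n → Finset (Fin n → Bool) → List (Finset (Fin n → Bool) × Clause n)
  | leaf C, A => [(A, C)]
  | node q l r, A => cells l (A.filter fun x => q x = false) ++
      cells r (A.filter fun x => q x = true)

lemma cells_length {n : ℕ} (T : DTree n) : ∀ A, (T.cells A).length = T.leaves := by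
  induction T with
  | leaf C => intro A; rfl
  | node q l r hl hr => intro A; simp only [cells, leaves, List.length_append, hl, hr]

lemma cells_total {n : ℕ} (T : DTree n) (x : Fin n → Bool) : ∀ A : Finset (Fin n → Bool),
    ((T.cells A).map fun p => if x ∈ p.1 then (1 : ℝ) else 0).sum = if x ∈ A then 1 else 0 := by
  induction T with
  | leaf C => intro A; simp [cells]
  | node q l r hl hr =>
    intro A
    rw [cells, List.map_append, List.sum_append, hl, hr]
    simp only [mem_filter]
    by_cases hA : x ∈ A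
    · cases hq : q x <;> simp [hA]
    · simp [hA]

lemma cells_out {n : ℕ} (T : DTree n) : ∀ A : Finset (Fin n → Bool), ∀ p ∈ T.cells A,
    ∀ x ∈ p.1, x ∈ A ∧ T.out x = p.2 := by
  induction T with
  | leaf C =>
    intro A p hp x hx
    simp only [cells, List.mem_singleton] at hp
    subst hp
    exact ⟨hx, rfl⟩
  | node q l r hl hr =>
    intro A p hp x hx
    rw [cells, List.mem_append] at hp
    rcases hp with hp | hp
    · obtain ⟨h1, h2⟩ := hl _ p hp x hx
      rw [mem_filter] at h1
      refine ⟨h1.1, ?_⟩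
      rw [out, if_neg (by rw [h1.2]; simp), h2]
    · obtain ⟨h1, h2⟩ := hr _ p hp x hx
      rw [mem_filter] at h1
      refine ⟨h1.1, ?_⟩
      rw [out, if_pos h1.2, h2]

end DTree

/-- the intersections of at most `j` query outcomes -/
lemma exists_query_family {n : ℕ} (𝒬 : Finset ((Fin n → Bool) → Bool)) : ∀ j : ℕ,
    ∃ 𝒜 : Finset (Finset (Fin n → Bool)), 𝒜.card ≤ (2 * 𝒬.card + 1) ^ j ∧
      ∀ T : DTree n, T.QueriesIn 𝒬 → T.depth ≤ j → ∀ p ∈ T.cells univ, p.1 ∈ 𝒜 := by
  classical
  let step : Finset (Finset (Fin n → Bool)) → Finset (Finset (Fin n → Bool)) := fun 𝒜 =>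
    𝒜 ∪ (𝒜 ×ˢ (𝒬 ×ˢ (univ : Finset Bool))).image fun p => p.1.filter fun x => p.2.1 x = p.2.2
  have hstep : ∀ 𝒜, (step 𝒜).card ≤ 𝒜.card * (2 * 𝒬.card + 1) := by
    intro 𝒜
    refine (card_union_le _ _).trans ?_
    have h1 : ((𝒜 ×ˢ (𝒬 ×ˢ (univ : Finset Bool))).image
        fun p => p.1.filter fun x => p.2.1 x = p.2.2).card ≤ 𝒜.card * (𝒬.card * 2) := by
      refine card_image_le.trans ?_
      rw [card_product, card_product, card_univ, Fintype.card_bool]
    calc 𝒜.card + _ ≤ 𝒜.card + 𝒜.card * (𝒬.card * 2) := Nat.add_le_add_left h1 _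
      _ = 𝒜.card * (2 * 𝒬.card + 1) := by ring
  let Fam : ℕ → Finset (Finset (Fin n → Bool)) := fun j => step^[j] {univ}
  have hFs : ∀ j, Fam (j + 1) = step (Fam j) := fun j => Function.iterate_succ_apply' _ _ _
  have hFc : ∀ j, (Fam j).card ≤ (2 * 𝒬.card + 1) ^ j := by
    intro j
    induction j with
    | zero => simp [Fam]
    | succ j ih =>
      rw [hFs, pow_succ]
      exact (hstep _).trans (Nat.mul_le_mul_right _ ih)
  have hFm : ∀ i j, i ≤ j → Fam i ⊆ Fam j := by
    intro i j hij
    induction j, hij using Nat.le_induction with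
    | base => exact Subset.rfl
    | succ j _ ih =>
      rw [hFs]
      exact ih.trans subset_union_left
  have hFq : ∀ j, ∀ A ∈ Fam j, ∀ q ∈ 𝒬, ∀ b : Bool, (A.filter fun x => q x = b) ∈ Fam (j + 1) := by
    intro j A hA q hq b
    rw [hFs]
    refine mem_union_right _ (mem_image.2 ⟨(A, q, b), ?_, rfl⟩)
    exact mem_product.2 ⟨hA, mem_product.2 ⟨hq, mem_univ _⟩⟩
  have hcells : ∀ T : DTree n, T.QueriesIn 𝒬 → ∀ i, ∀ A ∈ Fam i, ∀ p ∈ T.cells A,
      p.1 ∈ Fam (i + T.depth) := by
    intro T
    induction T with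
    | leaf C =>
      intro _ i A hA p hp
      simp only [DTree.cells, List.mem_singleton] at hp
      subst hp
      exact hA
    | node q l r hl hr =>
      rintro ⟨hq, hql, hqr⟩ i A hA p hp
      rw [DTree.cells, List.mem_append] at hp
      rcases hp with hp | hp
      · refine hFm (i + 1 + l.depth) _ ?_ (hl hql (i + 1) _ (hFq i A hA q hq false) p hp)
        rw [DTree.depth]
        have := le_max_left l.depth r.depth
        omega
      · refine hFm (i + 1 + r.depth) _ ?_ (hr hqr (i + 1) _ (hFq i A hA q hq true) p hp)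
        rw [DTree.depth]
        have := le_max_right l.depth r.depth
        omega
  intro j
  refine ⟨Fam j, hFc j, ?_⟩
  intro T hT hd p hp
  have h0 : (univ : Finset (Fin n → Bool)) ∈ Fam 0 := by simp [Fam]
  have := hcells T hT 0 univ h0 p hp
  rw [zero_add] at this
  exact hFm _ _ hd this

lemma weight_le_one {n : ℕ} {Cell : Finset (Fin n → Bool) → Prop} {F : CNF n} {s N : ℕ}
    (P : FractionalPartition Cell F s N) (t : Fin N) : P.w t ≤ 1 := by
  obtain ⟨x, hx⟩ := P.nonempty t
  rw [← P.total x]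
  have := Finset.single_le_sum (f := fun t => if x ∈ P.cell t then P.w t else 0)
    (s := univ) (fun t _ => by split_ifs; exacts [P.nonneg t, le_rfl]) (mem_univ t)
  simp only [if_pos hx] at this
  exact this

lemma total_le {n : ℕ} {Cell : Finset (Fin n → Bool) → Prop} {F : CNF n} {s N : ℕ}
    (P : FractionalPartition Cell F s N) : ∑ t, P.w t ≤ N := by
  calc ∑ t, P.w t ≤ ∑ t : Fin N, (1 : ℝ) := Finset.sum_le_sum fun t _ => weight_le_one P t
    _ = N := by simp

/-- Affine subspaces: Hitting(xor), in particular parity decision trees. -/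
theorem affine (ε : ℝ) (hε : 0 < ε) : ∃ K n0 : ℕ, ∀ n, n0 ≤ n →
    ∃ F : CNF n, Small K F ∧ Unsat F ∧
      ∀ (N : ℕ) (P : FractionalPartition IsAffine F (K * Nat.log 2 n) N),
        (2 : ℝ) ^ ((1 - ε) * n) ≤ ∑ t, P.w t ∧ ∑ t, P.w t ≤ N := by
  classical
  obtain ⟨K, n0, h⟩ := Pool.Agent.H59.Seth.main 3 ε hε
  refine ⟨K, max n0 4, fun n hn => ?_⟩
  have hn4 : 4 ≤ n := (le_max_right _ _).trans hn
  obtain ⟨𝒜, h𝒜c, h𝒜⟩ := Pool.Agent.H59.Seth.exists_aff_family n
  have hc : 𝒜.card ≤ 2 ^ n ^ 3 := by
    refine h𝒜c.trans ?_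
    calc 2 ^ (n + n * n) + 1 ≤ 2 ^ (n + n * n) + 2 ^ (n + n * n) :=
          Nat.add_le_add_left (Nat.one_le_two_pow) _
      _ = 2 ^ (n + n * n + 1) := by rw [pow_succ]; ring
      _ ≤ 2 ^ n ^ 3 := by
          refine Nat.pow_le_pow_right (by norm_num) ?_
          nlinarith [Nat.mul_le_mul hn4 hn4]
  obtain ⟨F, hF1, hF2, hF3, hF4⟩ := h n ((le_max_left _ _).trans hn) 𝒜 hc
  exact ⟨F, ⟨hF2, hF1⟩, hF3, fun N P =>
    ⟨hF4 N P.cell P.w (fun t => h𝒜 _ (P.mem t)) P.nonneg P.total P.closed, total_le P⟩⟩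

/-- Decision trees with queries from a given family of predicates. -/
theorem trees (a c : ℕ) (ε : ℝ) (hε : 0 < ε) : ∃ K n0 : ℕ, ∀ n, n0 ≤ n →
    ∀ 𝒬 : Finset ((Fin n → Bool) → Bool), 𝒬.card ≤ 2 ^ n ^ c →
      ∃ F : CNF n, Small K F ∧ Unsat F ∧
        ∀ T : DTree n, T.QueriesIn 𝒬 → T.depth ≤ n ^ a → T.Solves F →
          (2 : ℝ) ^ ((1 - ε) * n) ≤ T.leaves := by
  classical
  obtain ⟨K, n0, h⟩ := Pool.Agent.H59.Seth.main (a + c + 1) ε hε
  obtain ⟨n1, hn1⟩ := Pool.Agent.H59.Seth.log_small K
  refine ⟨K, max (max n0 n1) 4, fun n hn 𝒬 h𝒬 => ?_⟩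
  have hn4 : 4 ≤ n := (le_max_right _ _).trans hn
  have hn0 : n0 ≤ n := ((le_max_left _ _).trans (le_max_left _ _)).trans hn
  have hnn1 : n1 ≤ n := ((le_max_right _ _).trans (le_max_left _ _)).trans hn
  obtain ⟨𝒜, h𝒜c, h𝒜⟩ := exists_query_family 𝒬 (n ^ a)
  have hc : 𝒜.card ≤ 2 ^ n ^ (a + c + 1) := by
    have h1 : 2 * 𝒬.card + 1 ≤ 2 ^ (n ^ c + 2) := by
      have h2 : 1 ≤ 2 ^ n ^ c := Nat.one_le_two_pow
      rw [pow_add]
      omega
    have h3 : n ^ c + 2 ≤ n ^ (c + 1) := by
      have h4 : 1 ≤ n ^ c := Nat.one_le_pow _ _ (by omega)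
      rw [pow_succ]
      nlinarith
    calc 𝒜.card ≤ (2 * 𝒬.card + 1) ^ n ^ a := h𝒜c
      _ ≤ (2 ^ (n ^ c + 2)) ^ n ^ a := Nat.pow_le_pow_left h1 _
      _ = 2 ^ ((n ^ c + 2) * n ^ a) := by rw [← pow_mul]
      _ ≤ 2 ^ (n ^ (c + 1) * n ^ a) :=
          Nat.pow_le_pow_right (by norm_num) (Nat.mul_le_mul_right _ h3)
      _ = 2 ^ n ^ (a + c + 1) := by
          congr 1
          rw [← pow_add]
          congr 1
          ring
  obtain ⟨F, hF1, hF2, hF3, hF4⟩ := h n hn0 𝒜 hc
  refine ⟨F, ⟨hF2, hF1⟩, hF3, fun T hTq hTd hTs => ?_⟩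
  set L := T.cells univ with hL
  have hlen : L.length = T.leaves := T.cells_length univ
  have hmain := hF4 L.length (fun t => (L.get t).1) (fun _ => 1)
    (fun t => h𝒜 T hTq hTd _ (L.get_mem t)) (fun _ => zero_le_one)
    (by
      intro x
      have h1 := T.cells_total x univ
      rw [if_pos (mem_univ x), ← hL] at h1
      have h2 := Fin.sum_univ_fun_getElem L (fun p => if x ∈ p.1 then (1 : ℝ) else 0)
      exact h2.trans h1)
    (by
      intro t
      rcases (L.get t).1.eq_empty_or_nonempty with he | ⟨x0, hx0⟩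
      · refine ⟨∅, empty_subset _, by simp, ?_⟩
        intro x hx
        rw [he] at hx
        exact absurd hx (notMem_empty x)
      · have hout := T.cells_out univ (L.get t) (L.get_mem t)
        refine ⟨{(L.get t).2}, ?_, ?_, ?_⟩
        · rw [singleton_subset_iff, ← (hout x0 hx0).2]
          exact (hTs x0).1
        · rw [card_singleton, one_mul]
          exact hn1 n hnn1
        · intro x hx
          refine ⟨(L.get t).2, mem_singleton_self _, ?_⟩
          rw [← (hout x hx).2]
          exact (hTs x).2)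
  refine hmain.trans (le_of_eq ?_)
  simp [hlen]

end Pool.Agent.H59.Seth.Cor
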