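import Pool.Agent.H59.Seth.Moment

/-!
# Decomposition into dense pieces, counting on dense pieces, existence of good gadgets
-/

open Finset

namespace Pool.Agent.H59.Seth

variable {I U : Type*} [Fintype I] [DecidableEq I] [Fintype U] [DecidableEq U]

lemma DenseOn.mono {d : ℕ} {R J : Finset I} {B : Finset (I → U)} (h : DenseOn d R B)
    (hJ : J ⊆ R) : DenseOn d J B := fun C hC u => h C (hC.trans hJ) u

/-- `B` is a piece with free blocks `R`: constant outside `R`, dense on `R` -/
structure IsPiece (d : ℕ) (B : Finset (I → U)) (R : Finset I) : Prop where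
  nonempty : B.Nonempty
  dense : DenseOn d R B
  const : ∀ y ∈ B, ∀ y' ∈ B, ∀ i, i ∉ R → y i = y' i

lemma exists_piece {d : ℕ} {A : Finset (I → U)} (hA : A.Nonempty) :
    ∃ (B : Finset (I → U)) (R : Finset I), B ⊆ A ∧ IsPiece d B R ∧
      A.card ≤ B.card * 2 ^ (d * Rᶜ.card) := by
  classical
  set P : ℕ → Prop := fun k => ∃ (Cl : Finset I) (u : I → U), Cl.card = k ∧
    A.card ≤ (A.filter fun y => ∀ i ∈ Cl, y i = u i).card * 2 ^ (d * Cl.card) with hP
  obtain ⟨y0, hy0⟩ := hA
  have hP0 : P 0 := ⟨∅, y0, rfl, by simp⟩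
  have hPle : ∀ k, P k → k ≤ Fintype.card I := by
    rintro k ⟨Cl, u, hc, -⟩
    rw [← hc]
    exact card_le_univ Cl
  set k := Nat.findGreatest P (Fintype.card I) with hk
  have hPk : P k := Nat.findGreatest_spec (Nat.zero_le _) hP0
  have hmax : ∀ k', k < k' → ¬ P k' := by
    intro k' hkk' hPk'
    exact Nat.findGreatest_is_greatest hkk' (hPle _ hPk') hPk'
  obtain ⟨Cl, u, hClk, hCl⟩ := hPk
  refine ⟨A.filter fun y => ∀ i ∈ Cl, y i = u i, Clᶜ, filter_subset _ _, ⟨?_, ?_, ?_⟩, ?_⟩
  · rw [← card_pos]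
    have hApos : 0 < A.card := card_pos.2 ⟨y0, hy0⟩
    rcases Nat.eq_zero_or_pos (A.filter fun y => ∀ i ∈ Cl, y i = u i).card with h | h
    · rw [h, zero_mul] at hCl
      omega
    · exact h
  · intro C hC u'
    rcases C.eq_empty_or_nonempty with rfl | hCne
    · simp
    have hdisj : Disjoint Cl C := by
      rw [Finset.disjoint_left]
      intro i hi hiC
      exact (mem_compl.1 (hC hiC)) hi
    set u'' : I → U := fun i => if i ∈ Cl then u i else u' i with hu''
    have hnot := hmax (Cl ∪ C).card (by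
      rw [card_union_of_disjoint hdisj, ← hClk]
      have := card_pos.2 hCne
      omega)
    have hlt : (A.filter fun y => ∀ i ∈ Cl ∪ C, y i = u'' i).card * 2 ^ (d * (Cl ∪ C).card) <
        A.card := by
      by_contra hcon
      push Not at hcon
      exact hnot ⟨Cl ∪ C, u'', rfl, hcon⟩
    have heq : ((A.filter fun y => ∀ i ∈ Cl, y i = u i).filter fun y => ∀ i ∈ C, y i = u' i) =
        A.filter fun y => ∀ i ∈ Cl ∪ C, y i = u'' i := by
      ext y
      simp only [mem_filter, mem_union]
      constructor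
      · rintro ⟨⟨h1, h2⟩, h3⟩
        refine ⟨h1, fun i hi => ?_⟩
        by_cases hiC : i ∈ Cl
        · simp only [hu'', hiC, if_true]; exact h2 i hiC
        · simp only [hu'', hiC, if_false]
          exact h3 i (hi.resolve_left hiC)
      · rintro ⟨h1, h2⟩
        refine ⟨⟨h1, fun i hi => ?_⟩, fun i hi => ?_⟩
        · have := h2 i (Or.inl hi)
          simpa only [hu'', hi, if_true] using this
        · have := h2 i (Or.inr hi)
          have hiC : i ∉ Cl := fun h => (Finset.disjoint_left.1 hdisj h) hi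
          simpa only [hu'', hiC, if_false] using this
    rw [heq]
    rw [card_union_of_disjoint hdisj, Nat.mul_add, pow_add] at hlt
    have h3 := lt_of_lt_of_le hlt hCl
    have h4 : (A.filter fun y => ∀ i ∈ Cl ∪ C, y i = u'' i).card * 2 ^ (d * C.card) *
        2 ^ (d * Cl.card) < (A.filter fun y => ∀ i ∈ Cl, y i = u i).card * 2 ^ (d * Cl.card) := by
      calc _ = (A.filter fun y => ∀ i ∈ Cl ∪ C, y i = u'' i).card *
            (2 ^ (d * Cl.card) * 2 ^ (d * C.card)) := by ring
        _ < _ := h3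
    exact (lt_of_mul_lt_mul_right h4 (Nat.zero_le _)).le
  · intro y hy y' hy' i hi
    rw [mem_compl, not_not] at hi
    rw [(mem_filter.1 hy).2 i hi, (mem_filter.1 hy').2 i hi]
  · rw [compl_compl]
    exact hCl

omit [DecidableEq U] in
lemma IsPiece.card_le {d : ℕ} {B : Finset (I → U)} {R : Finset I} [DecidableEq U]
    (h : IsPiece d B R) : B.card ≤ Fintype.card U ^ R.card := by
  classical
  obtain ⟨y0, hy0⟩ := h.nonempty
  have hsub : B ⊆ Fintype.piFinset fun i => if i ∈ R then univ else {y0 i} := by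
    intro y hy
    rw [Fintype.mem_piFinset]
    intro i
    by_cases hi : i ∈ R
    · simp [hi]
    · simp only [hi, if_false, mem_singleton]
      exact h.const y hy y0 hy0 i hi
  refine (card_le_card hsub).trans ?_
  rw [Fintype.card_piFinset]
  have h1 : ∀ i : I, (if i ∈ R then (univ : Finset U) else {y0 i}).card =
      if i ∈ R then Fintype.card U else 1 := by
    intro i; split_ifs <;> simp
  simp only [h1]
  rw [Finset.prod_ite_mem, univ_inter, Finset.prod_const]

/-- decomposition of a set into dense pieces with at least `r` free blocks and a small rest -/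
lemma exists_decomp {d r : ℕ} (hU : 2 ≤ Fintype.card U) (A : Finset (I → U)) :
    ∃ P : Finset (Finset (I → U)), (∀ B ∈ P, B ⊆ A ∧ ∃ R, IsPiece d B R ∧ r ≤ R.card) ∧
      ((P : Set (Finset (I → U))).PairwiseDisjoint id) ∧
      (A \ P.biUnion id).card ≤ 2 ^ (d * Fintype.card I) * Fintype.card U ^ r := by
  classical
  induction A using Finset.strongInduction with
  | H A ih =>
    by_cases hA : A.card ≤ 2 ^ (d * Fintype.card I) * Fintype.card U ^ r
    · refine ⟨∅, by simp, by simp, by simpa using hA⟩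
    · push Not at hA
      have hAne : A.Nonempty := by
        rw [← card_pos]
        exact lt_of_le_of_lt (Nat.zero_le _) hA
      obtain ⟨B, R, hBA, hB, hcard⟩ := exists_piece (d := d) hAne
      have hr : r ≤ R.card := by
        have h1 := hB.card_le
        have h2 : 2 ^ (d * Fintype.card I) * Fintype.card U ^ r <
            Fintype.card U ^ R.card * 2 ^ (d * Fintype.card I) := by
          calc _ < A.card := hA
            _ ≤ B.card * 2 ^ (d * Rᶜ.card) := hcard
            _ ≤ Fintype.card U ^ R.card * 2 ^ (d * Fintype.card I) := by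
                refine Nat.mul_le_mul h1 (Nat.pow_le_pow_right (by norm_num) ?_)
                exact Nat.mul_le_mul_left _ (card_le_univ _)
        rw [mul_comm (2 ^ (d * Fintype.card I))] at h2
        have h3 := lt_of_mul_lt_mul_right h2 (Nat.zero_le _)
        exact ((Nat.pow_lt_pow_iff_right (by omega)).1 h3).le
      have hss : A \ B ⊂ A := by
        refine Finset.ssubset_iff_subset_ne.2 ⟨sdiff_subset, fun h => ?_⟩
        obtain ⟨y, hy⟩ := hB.nonempty
        have : y ∈ A \ B := by rw [h]; exact hBA hy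
        exact (mem_sdiff.1 this).2 hy
      obtain ⟨P, hP1, hP2, hP3⟩ := ih (A \ B) hss
      refine ⟨insert B P, ?_, ?_, ?_⟩
      · intro B' hB'
        rw [mem_insert] at hB'
        rcases hB' with rfl | hB'
        · exact ⟨hBA, R, hB, hr⟩
        · exact ⟨(hP1 B' hB').1.trans sdiff_subset, (hP1 B' hB').2⟩
      · rw [coe_insert]
        refine hP2.insert fun B' hB' _ => ?_
        show Disjoint B B'
        rw [Finset.disjoint_left]
        intro y hy hy'
        exact (mem_sdiff.1 ((hP1 B' hB').1 hy')).2 hy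
      · refine le_trans (card_le_card ?_) hP3
        intro y hy
        rw [mem_sdiff] at hy ⊢
        rw [biUnion_insert, mem_union] at hy
        push Not at hy
        exact ⟨mem_sdiff.2 ⟨hy.1, hy.2.1⟩, hy.2.2⟩

lemma chi_abs (a : ZMod 2) : |chi a| = 1 := by
  unfold chi; split_ifs <;> simp

/-- counting the points of a dense set with prescribed gadget values -/
lemma card_fiber_approx {g : I → U → ZMod 2} {R : Finset I} {B : Finset (I → U)} {η : ℝ}
    (hg : ∀ J ⊆ R, J.Nonempty → |X g J B| ≤ B.card * η ^ J.card) (z : I → ZMod 2) :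
    |((B.filter fun y => ∀ i ∈ R, g i (y i) = z i).card : ℝ) * 2 ^ R.card - B.card| ≤
      B.card * ((1 + η) ^ R.card - 1) := by
  classical
  have h1 : ((B.filter fun y => ∀ i ∈ R, g i (y i) = z i).card : ℝ) * 2 ^ R.card =
      ∑ y ∈ B, ∏ i ∈ R, (1 + chi (z i) * chi (g i (y i))) := by
    rw [← nsmul_eq_mul, ← Finset.sum_const, Finset.sum_filter]
    refine Finset.sum_congr rfl fun y _ => ?_
    by_cases h : ∀ i ∈ R, g i (y i) = z i
    · rw [if_pos h, ← Finset.prod_const]
      refine Finset.prod_congr rfl fun i hi => ?_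
      rw [h i hi, chi_mul_self]; norm_num
    · rw [if_neg h]
      push Not at h
      obtain ⟨i, hi, hne⟩ := h
      symm
      refine Finset.prod_eq_zero hi ?_
      have : chi (z i) * chi (g i (y i)) = -1 := by
        unfold chi
        have h2 : ∀ a b : ZMod 2, a ≠ b → (a = 0 ∧ b ≠ 0) ∨ (a ≠ 0 ∧ b = 0) := by decide
        rcases h2 _ _ hne with ⟨h3, h4⟩ | ⟨h3, h4⟩
        · rw [if_neg h4, if_pos h3]; norm_num
        · rw [if_pos h4, if_neg h3]; norm_num
      rw [this]; norm_num
  have h2 : ∑ y ∈ B, ∏ i ∈ R, (1 + chi (z i) * chi (g i (y i))) =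
      ∑ J ∈ R.powerset, (∏ i ∈ J, chi (z i)) * X g J B := by
    have h3 : ∀ y : I → U, ∏ i ∈ R, (1 + chi (z i) * chi (g i (y i))) =
        ∑ J ∈ R.powerset, (∏ i ∈ J, chi (z i)) * ∏ i ∈ J, chi (g i (y i)) := by
      intro y
      rw [Finset.prod_one_add]
      exact Finset.sum_congr rfl fun J _ => Finset.prod_mul_distrib
    simp only [h3]
    rw [Finset.sum_comm]
    refine Finset.sum_congr rfl fun J _ => ?_
    rw [X, Finset.mul_sum]
  have h3 : ∑ J ∈ R.powerset, (∏ i ∈ J, chi (z i)) * X g J B =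
      B.card + ∑ J ∈ R.powerset.erase ∅, (∏ i ∈ J, chi (z i)) * X g J B := by
    rw [← Finset.add_sum_erase _ _ (empty_mem_powerset R)]
    congr 1
    simp [X]
  have h4 : (1 + η) ^ R.card = 1 + ∑ J ∈ R.powerset.erase ∅, η ^ J.card := by
    have h5 : (1 + η) ^ R.card = ∏ i ∈ R, (1 + η) := by rw [Finset.prod_const]
    rw [h5, Finset.prod_one_add, ← Finset.add_sum_erase _ _ (empty_mem_powerset R)]
    congr 1
    exact Finset.sum_congr rfl fun J _ => by rw [Finset.prod_const]
  rw [h1, h2, h3, h4, add_sub_cancel_left, add_sub_cancel_left, Finset.mul_sum]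
  refine (Finset.abs_sum_le_sum_abs _ _).trans (Finset.sum_le_sum fun J hJ => ?_)
  rw [mem_erase, mem_powerset] at hJ
  rw [abs_mul, Finset.abs_prod, Finset.prod_congr rfl (fun i _ => chi_abs (z i)),
    Finset.prod_const_one, one_mul]
  exact hg J hJ.2 (Finset.nonempty_iff_ne_empty.2 hJ.1)

/-- a gadget that is pseudorandom on all members of a small family of dense sets -/
lemma exists_gadget {d q e : ℕ} (hev : Even q) (hq : q * 2 ^ (2 * (e + 2)) ≤ 2 ^ d)
    (F : Finset (Finset (I → U))) (R : Finset (I → U) → Finset I)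
    (hF : ∀ B ∈ F, B.Nonempty ∧ DenseOn d (R B) B)
    (hcard : F.card * 2 ^ Fintype.card I < 2 ^ q) :
    ∃ g : I → U → ZMod 2, ∀ B ∈ F, ∀ J ⊆ R B, J.Nonempty →
      |X g J B| ≤ B.card * ((1 / 2 : ℝ) ^ e) ^ J.card := by
  classical
  by_contra hcon
  push Not at hcon
  set bad : Finset (I → U) → Finset I → Finset (I → U → ZMod 2) := fun B J =>
    univ.filter fun g : I → U → ZMod 2 =>
      (B.card : ℝ) * ((1 / 2 : ℝ) ^ e) ^ J.card < |X g J B| with hbad
  have hcov : (univ : Finset (I → U → ZMod 2)) ⊆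
      (F ×ˢ (univ : Finset I).powerset).biUnion fun p =>
        if p.2 ⊆ R p.1 ∧ p.2.Nonempty then bad p.1 p.2 else ∅ := by
    intro g _
    obtain ⟨B, hB, J, hJ, hJne, hlt⟩ := hcon g
    rw [mem_biUnion]
    refine ⟨(B, J), mem_product.2 ⟨hB, mem_powerset.2 (subset_univ _)⟩, ?_⟩
    rw [if_pos ⟨hJ, hJne⟩]
    exact mem_filter.2 ⟨mem_univ _, hlt⟩
  have h1 := (card_le_card hcov).trans card_biUnion_le
  rw [card_univ] at h1
  set G := Fintype.card (I → U → ZMod 2) with hG
  have hGpos : 0 < G := Fintype.card_pos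
  have h2 : ∀ p ∈ F ×ˢ (univ : Finset I).powerset,
      ((if p.2 ⊆ R p.1 ∧ p.2.Nonempty then bad p.1 p.2 else ∅).card : ℝ) * 2 ^ q ≤ G := by
    rintro ⟨B, J⟩ hp
    rw [mem_product] at hp
    split_ifs with h
    · exact card_bad_le h.2 (hF B hp.1).1 ((hF B hp.1).2.mono h.1) hq hev
    · simp
  have h3 : (G : ℝ) * 2 ^ q ≤ (F.card * 2 ^ Fintype.card I : ℕ) * G := by
    calc (G : ℝ) * 2 ^ q ≤ (∑ p ∈ F ×ˢ (univ : Finset I).powerset,
          ((if p.2 ⊆ R p.1 ∧ p.2.Nonempty then bad p.1 p.2 else ∅).card : ℝ)) * 2 ^ q := by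
          refine mul_le_mul_of_nonneg_right ?_ (by positivity)
          exact_mod_cast h1
      _ = ∑ p ∈ F ×ˢ (univ : Finset I).powerset,
          ((if p.2 ⊆ R p.1 ∧ p.2.Nonempty then bad p.1 p.2 else ∅).card : ℝ) * 2 ^ q := by
          rw [Finset.sum_mul]
      _ ≤ ∑ p ∈ F ×ˢ (univ : Finset I).powerset, (G : ℝ) := Finset.sum_le_sum h2
      _ = _ := by
          rw [Finset.sum_const, card_product, card_powerset, card_univ, nsmul_eq_mul]
  have h4 : ((F.card * 2 ^ Fintype.card I : ℕ) : ℝ) < 2 ^ q := by exact_mod_cast hcard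
  have h5 : (0 : ℝ) < G := by exact_mod_cast hGpos
  have h6 : ((F.card * 2 ^ Fintype.card I : ℕ) : ℝ) * G < 2 ^ q * G :=
    mul_lt_mul_of_pos_right h4 h5
  linarith

end Pool.Agent.H59.Seth
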