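import Pool.Agent.H59.Seth.Dense
import Pool.Agent.H73.Xor.Final

/-!
# Lifting the mass bound for linear systems through pseudorandom gadgets
-/

open Finset Pool.Agent.H73.Xor

namespace Pool.Agent.H59.Seth

variable {I J U : Type*} [Fintype I] [DecidableEq I] [Fintype J] [DecidableEq J]
  [Fintype U] [DecidableEq U]

/-- the gadget values of a point -/
def gv (g : I → U → ZMod 2) (y : I → U) : I → ZMod 2 := fun i => g i (y i)

omit [Fintype I] [DecidableEq I] [Fintype J] [DecidableEq J] [Fintype U] [DecidableEq U] in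
lemma gv_apply (g : I → U → ZMod 2) (y : I → U) (i : I) : gv g y i = g i (y i) := rfl

/-- pseudorandomness of the gadget on the dense set `B` with free blocks `R` -/
def Psr (h : ℝ) (g : I → U → ZMod 2) (B : Finset (I → U)) (R : Finset I) : Prop :=
  ∀ z : I → ZMod 2,
    |((B.filter fun y => ∀ i ∈ R, g i (y i) = z i).card : ℝ) * 2 ^ R.card - B.card| ≤ B.card * h

omit [Fintype J] [DecidableEq J] in
/-- counting the fibre of a piece -/
lemma piece_count {h : ℝ} {g : I → U → ZMod 2} {d : ℕ} {B : Finset (I → U)} {R : Finset I}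
    (hp : IsPiece d B R) (hpsr : Psr h g B R) {y0 : I → U} (hy0 : y0 ∈ B) (z : I → ZMod 2) :
    (1 - h) * (if Agree Rᶜ (gv g y0) z then (B.card : ℝ) / 2 ^ R.card else 0) ≤
        ((B.filter fun y => gv g y = z).card : ℝ) ∧
      ((B.filter fun y => gv g y = z).card : ℝ) ≤
        (1 + h) * (if Agree Rᶜ (gv g y0) z then (B.card : ℝ) / 2 ^ R.card else 0) := by
  by_cases hag : Agree Rᶜ (gv g y0) z
  · rw [if_pos hag]
    have heq : (B.filter fun y => gv g y = z) = B.filter fun y => ∀ i ∈ R, g i (y i) = z i := by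
      refine Finset.filter_congr fun y hy => ?_
      constructor
      · intro he i _
        rw [← he]; rfl
      · intro he
        funext i
        by_cases hi : i ∈ R
        · exact he i hi
        · have h1 := hag i (mem_compl.2 hi)
          rw [h1, gv_apply, gv_apply, hp.const y hy y0 hy0 i hi]
    rw [heq]
    have h2 := hpsr z
    rw [abs_le] at h2
    have h3 : (0 : ℝ) < 2 ^ R.card := by positivity
    constructor
    · rw [mul_div_assoc', div_le_iff₀ h3]
      linarith [h2.1]
    · rw [mul_div_assoc', le_div_iff₀ h3]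
      linarith [h2.2]
  · rw [if_neg hag, mul_zero, mul_zero]
    have h0 : (B.filter fun y => gv g y = z).card = 0 := by
      rw [Finset.card_eq_zero, Finset.filter_eq_empty_iff]
      intro y hy he
      apply hag
      intro i hi
      rw [← he, gv_apply, gv_apply, hp.const y hy y0 hy0 i (mem_compl.1 hi)]
    rw [h0]
    simp

theorem weight_bound {ι : Type*} [Fintype ι] [DecidableEq ι] {a : I → J → ZMod 2} {j0 : J}
    {c L D K s r k d : ℕ} (hgood : Good a c K D r k)
    (hs1 : 0 < s)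
    (hs0 : (S a (Pi.single j0 1) ∅ 0).card = s)
    (hs : ∀ j : J, (univ.filter fun j' : J =>
      (Pi.single j 1 + Pi.single j' 1 : J → ZMod 2) ∈ W a ∅).card ≤ s)
    (hP5 : 2 * K * (c.choose L * D ^ L) ≤ (Fintype.card J) ^ L)
    (hLc : L ≤ c) (hq : 4 * K * L ≤ c + 1)
    {h : ℝ} (hh0 : 0 ≤ h) (hh : h ≤ 1 / 40) (g : I → U → ZMod 2)
    (P : ι → Finset (Finset (I → U))) (R : Finset (I → U) → Finset I)
    (A : ι → Finset (I → U)) (w : ι → ℝ) (hw0 : ∀ t, 0 ≤ w t)
    (hPA : ∀ t, ∀ B ∈ P t, B ⊆ A t ∧ IsPiece d B (R B) ∧ r ≤ (R B).card ∧ Psr h g B (R B))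
    (hdisj : ∀ t, ((P t : Set (Finset (I → U))).PairwiseDisjoint id))
    {T : ℕ} (hrest : ∀ t, (A t \ (P t).biUnion id).card ≤ T)
    (huniv : Psr h g univ univ)
    (hw : ∀ y : I → U, ∑ t, (if y ∈ A t then w t else 0) = 1)
    (hclosed : ∀ t, ∃ S' : Finset J, S'.card ≤ D ∧ ∀ y ∈ A t, ∃ j ∈ S',
      app a (gv g y) j ≠ (Pi.single j0 1 : J → ZMod 2) j) :
    (Fintype.card U : ℝ) ^ Fintype.card I ≤ 4 * 2 ^ Fintype.card J * T * ∑ t, w t := by
  classical
  set b : J → ZMod 2 := Pi.single j0 1 with hb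
  -- base points of the pieces
  have hne : ∀ t, ∀ B ∈ P t, ∃ y, y ∈ B := fun t B hB => (hPA t B hB).2.1.nonempty
  set y0 : (Σ t : ι, {B // B ∈ P t}) → (I → U) := fun p => (hne p.1 p.2.1 p.2.2).choose with hy0
  have hy0m : ∀ p, y0 p ∈ p.2.1 := fun p => (hne p.1 p.2.1 p.2.2).choose_spec
  set Φ0 : ℝ := (Fintype.card U : ℝ) ^ Fintype.card I / 2 ^ Fintype.card I with hΦ0
  set Φ : (I → ZMod 2) → ℝ := fun z => ((univ.filter fun y : I → U => gv g y = z).card : ℝ) with hΦ
  set Ag : (Σ t : ι, {B // B ∈ P t}) → (I → ZMod 2) → Prop := fun p z =>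
    Agree (R p.2.1)ᶜ (gv g (y0 p)) z with hAg
  set vol : (Σ t : ι, {B // B ∈ P t}) → ℝ := fun p => (p.2.1.card : ℝ) / 2 ^ (R p.2.1).card with hvol
  set Wt : (I → ZMod 2) → ℝ := fun z => ∑ p : (Σ t : ι, {B // B ∈ P t}),
    w p.1 * (if Ag p z then vol p else 0) with hWt
  set E : (I → ZMod 2) → ℝ := fun z => ∑ t, w t *
    (((A t \ (P t).biUnion id).filter fun y => gv g y = z).card : ℝ) with hE
  have hvol0 : ∀ p, 0 ≤ vol p := fun p => by simp only [hvol]; positivity
  have hWt0 : ∀ z, 0 ≤ Wt z := fun z => Finset.sum_nonneg fun p _ =>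
    mul_nonneg (hw0 _) (by split_ifs; exacts [hvol0 p, le_rfl])
  have hE0 : ∀ z, 0 ≤ E z := fun z => Finset.sum_nonneg fun t _ =>
    mul_nonneg (hw0 _) (Nat.cast_nonneg _)
  -- the fibres
  have hfib : ∀ z, Φ z = (∑ p : (Σ t : ι, {B // B ∈ P t}),
      w p.1 * ((p.2.1.filter fun y => gv g y = z).card : ℝ)) + E z := by
    intro z
    have h1 : Φ z = ∑ t, w t * (((A t).filter fun y => gv g y = z).card : ℝ) := by
      have h2 : ∀ t, w t * (((A t).filter fun y => gv g y = z).card : ℝ) =
          ∑ y ∈ univ.filter (fun y : I → U => gv g y = z), if y ∈ A t then w t else 0 := by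
        intro t
        have h3 : (A t).filter (fun y => gv g y = z) =
            (univ.filter fun y : I → U => gv g y = z).filter fun y => y ∈ A t := by
          ext y
          simp only [mem_filter, mem_univ, true_and]
          tauto
        rw [← Finset.sum_filter, Finset.sum_const, nsmul_eq_mul, mul_comm, h3]
      simp only [h2]
      rw [Finset.sum_comm]
      simp only [hw, hΦ]
      simp
    have h3 : ∀ t, (((A t).filter fun y => gv g y = z).card : ℝ) =
        (∑ B : {B // B ∈ P t}, ((B.1.filter fun y => gv g y = z).card : ℝ)) +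
          (((A t \ (P t).biUnion id).filter fun y => gv g y = z).card : ℝ) := by
      intro t
      have hsub : (P t).biUnion id ⊆ A t := by
        intro y hy
        rw [mem_biUnion] at hy
        obtain ⟨B, hB, hyB⟩ := hy
        exact (hPA t B hB).1 hyB
      have h4 : (A t).filter (fun y => gv g y = z) =
          ((P t).biUnion fun B => B.filter fun y => gv g y = z) ∪
            ((A t \ (P t).biUnion id).filter fun y => gv g y = z) := by
        ext y
        simp only [mem_filter, mem_union, mem_biUnion, mem_sdiff, id]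
        constructor
        · rintro ⟨h5, h6⟩
          by_cases h7 : ∃ B ∈ P t, y ∈ B
          · obtain ⟨B, hB, hyB⟩ := h7
            exact Or.inl ⟨B, hB, hyB, h6⟩
          · exact Or.inr ⟨⟨h5, h7⟩, h6⟩
        · rintro (⟨B, hB, hyB, h6⟩ | ⟨⟨h5, _⟩, h6⟩)
          · exact ⟨(hPA t B hB).1 hyB, h6⟩
          · exact ⟨h5, h6⟩
      have h5 : Disjoint ((P t).biUnion fun B => B.filter fun y => gv g y = z)
          ((A t \ (P t).biUnion id).filter fun y => gv g y = z) := by
        rw [Finset.disjoint_left]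
        intro y hy hy'
        simp only [mem_filter, mem_biUnion, mem_sdiff, id] at hy hy'
        obtain ⟨B, hB, hyB, _⟩ := hy
        exact hy'.1.2 ⟨B, hB, hyB⟩
      rw [h4, card_union_of_disjoint h5, card_biUnion]
      · push_cast
        congr 1
        rw [← Finset.sum_coe_sort (P t) (fun B => ((B.filter fun y => gv g y = z).card : ℝ))]
      · intro B hB B' hB' hne'
        exact Finset.disjoint_filter_filter (hdisj t hB hB' hne')
    rw [h1]
    simp only [h3, mul_add]
    rw [Finset.sum_add_distrib]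
    congr 1
    rw [Fintype.sum_sigma]
    refine Finset.sum_congr rfl fun t _ => ?_
    rw [Finset.mul_sum]
  have hlow : ∀ z, (1 - h) * Wt z + E z ≤ Φ z := by
    intro z
    rw [hfib z, hWt]
    simp only
    rw [Finset.mul_sum]
    refine add_le_add (Finset.sum_le_sum fun p _ => ?_) le_rfl
    have := (piece_count (hPA p.1 p.2.1 p.2.2).2.1 (hPA p.1 p.2.1 p.2.2).2.2.2 (hy0m p) z).1
    calc (1 - h) * (w p.1 * if Ag p z then vol p else 0) =
        w p.1 * ((1 - h) * if Ag p z then vol p else 0) := by ring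
      _ ≤ _ := mul_le_mul_of_nonneg_left this (hw0 _)
  have hupp : ∀ z, Φ z ≤ (1 + h) * Wt z + E z := by
    intro z
    rw [hfib z, hWt]
    simp only
    rw [Finset.mul_sum]
    refine add_le_add (Finset.sum_le_sum fun p _ => ?_) le_rfl
    have := (piece_count (hPA p.1 p.2.1 p.2.2).2.1 (hPA p.1 p.2.1 p.2.2).2.2.2 (hy0m p) z).2
    calc w p.1 * ((p.2.1.filter fun y => gv g y = z).card : ℝ)
        ≤ w p.1 * ((1 + h) * if Ag p z then vol p else 0) :=
          mul_le_mul_of_nonneg_left this (hw0 _)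
      _ = (1 + h) * (w p.1 * if Ag p z then vol p else 0) := by ring
  have hΦa : ∀ z, (1 - h) * Φ0 ≤ Φ z ∧ Φ z ≤ (1 + h) * Φ0 := by
    intro z
    have h1 := huniv z
    have h2 : (univ.filter fun y : I → U => ∀ i ∈ (univ : Finset I), g i (y i) = z i) =
        univ.filter fun y : I → U => gv g y = z := by
      ext y
      simp only [mem_filter, mem_univ, true_and, forall_true_left]
      exact ⟨fun h => funext h, fun h i => congrFun h i⟩
    rw [h2, card_univ, card_univ, Fintype.card_fun] at h1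
    push_cast at h1
    rw [abs_le] at h1
    have h3 : (0 : ℝ) < 2 ^ Fintype.card I := by positivity
    constructor
    · rw [hΦ0, mul_div_assoc', div_le_iff₀ h3]
      simp only [hΦ]
      linarith [h1.1]
    · rw [hΦ0, mul_div_assoc', le_div_iff₀ h3]
      simp only [hΦ]
      linarith [h1.2]
  have hcardU : 0 < Fintype.card U ∨ Fintype.card U = 0 := by omega
  -- positivity
  have hΦ0nn : 0 ≤ Φ0 := by simp only [hΦ0]; positivity
  rcases hΦ0nn.eq_or_lt with hz | hΦ0pos
  · have : (Fintype.card U : ℝ) ^ Fintype.card I = 0 := by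
      have h3 : (0 : ℝ) < 2 ^ Fintype.card I := by positivity
      rw [hΦ0] at hz
      rcases div_eq_zero_iff.1 hz.symm with h4 | h4
      · exact h4
      · exact absurd h4 h3.ne'
    rw [this]
    have : 0 ≤ ∑ t, w t := Finset.sum_nonneg fun t _ => hw0 t
    positivity
  set Λ : ℝ := (1 + h) / (1 - h) * Φ0 with hΛ
  have h1h : 0 < 1 - h := by linarith
  have hΛpos : 0 < Λ := by simp only [hΛ]; positivity
  have hWΛ : ∀ z, Wt z ≤ Λ := by
    intro z
    rw [hΛ, div_mul_eq_mul_div, le_div_iff₀ h1h]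
    have := hlow z
    have := (hΦa z).2
    have := hE0 z
    nlinarith
  have hdef : ∀ z, 1 - Wt z / Λ ≤ 1 / 8 + E z / Φ0 := by
    intro z
    have h1 : (1 - h) * Φ0 - E z ≤ (1 + h) * Wt z := by
      have := hupp z
      have := (hΦa z).1
      linarith
    have h2 : (1 - h) / (1 + h) - E z / Φ0 ≤ Wt z / Φ0 := by
      rw [div_sub_div _ _ (by linarith) hΦ0pos.ne', div_le_div_iff₀ (by positivity) hΦ0pos]
      have h3 : 0 ≤ h * E z := mul_nonneg hh0 (hE0 z)
      nlinarith [mul_pos hΦ0pos hΦ0pos]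
    have h3 : Wt z / Λ = (1 - h) / (1 + h) * (Wt z / Φ0) := by
      rw [hΛ]
      field_simp
    rw [h3]
    have h4 : 0 ≤ (1 - h) / (1 + h) := by positivity
    have h5 : (1 - h) / (1 + h) ≤ 1 := by
      rw [div_le_one (by linarith)]; linarith
    have h6 : 19 / 20 ≤ (1 - h) / (1 + h) := by
      rw [div_le_div_iff₀ (by norm_num) (by linarith)]
      linarith
    have h7 : (1 - h) / (1 + h) * ((1 - h) / (1 + h) - E z / Φ0) ≤
        (1 - h) / (1 + h) * (Wt z / Φ0) := mul_le_mul_of_nonneg_left h2 h4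
    have h8 : 0 ≤ E z / Φ0 := div_nonneg (hE0 z) hΦ0pos.le
    nlinarith
  -- the partition of the cube of gadget values
  set Tf : ((Σ t : ι, {B // B ∈ P t}) ⊕ (I → ZMod 2)) → Finset I :=
    Sum.elim (fun p => (R p.2.1)ᶜ) (fun _ => univ) with hTf
  set ρf : ((Σ t : ι, {B // B ∈ P t}) ⊕ (I → ZMod 2)) → I → ZMod 2 :=
    Sum.elim (fun p => gv g (y0 p)) (fun z => z) with hρf
  set wf : ((Σ t : ι, {B // B ∈ P t}) ⊕ (I → ZMod 2)) → ℝ :=
    Sum.elim (fun p => w p.1 * vol p / Λ) (fun z => 1 - Wt z / Λ) with hwf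
  have hwf0 : ∀ t, 0 ≤ wf t := by
    rintro (p | z)
    · simp only [hwf, Sum.elim_inl]
      exact div_nonneg (mul_nonneg (hw0 _) (hvol0 p)) hΛpos.le
    · simp only [hwf, Sum.elim_inr, sub_nonneg]
      rw [div_le_one hΛpos]
      exact hWΛ z
  have hwfs : ∀ x : I → ZMod 2, ∑ t, (if Agree (Tf t) (ρf t) x then wf t else 0) = 1 := by
    intro x
    rw [Fintype.sum_sum_type]
    simp only [hTf, hρf, hwf, Sum.elim_inl, Sum.elim_inr]
    have h1 : ∑ p : (Σ t : ι, {B // B ∈ P t}),
        (if Agree (R p.2.1)ᶜ (gv g (y0 p)) x then w p.1 * vol p / Λ else 0) = Wt x / Λ := by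
      rw [hWt]
      simp only
      rw [Finset.sum_div]
      refine Finset.sum_congr rfl fun p _ => ?_
      by_cases h : Ag p x
      · have h' : Agree (R p.2.1)ᶜ (gv g (y0 p)) x := h
        rw [if_pos h', if_pos h]
      · have h' : ¬ Agree (R p.2.1)ᶜ (gv g (y0 p)) x := h
        rw [if_neg h', if_neg h]
        simp
    have h2 : ∑ z : I → ZMod 2, (if Agree univ z x then 1 - Wt z / Λ else 0) = 1 - Wt x / Λ := by
      rw [Finset.sum_eq_single x]
      · have hxx : Agree univ x x := fun i _ => rfl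
        rw [if_pos hxx]
      · intro z _ hzx
        rw [if_neg]
        intro hag
        exact hzx (funext fun i => (hag i (mem_univ i)).symm)
      · intro h; exact absurd (mem_univ x) h
    rw [h1, h2]
    ring
  set Bf : Finset ((Σ t : ι, {B // B ∈ P t}) ⊕ (I → ZMod 2)) :=
    univ.filter fun t => t.isLeft = true with hBf
  have hBfp : ∀ t ∈ Bf, r ≤ (Tf t)ᶜ.card ∧ (S a b (Tf t) (ρf t)).card ≤ D := by
    rintro (p | z) ht
    · obtain ⟨-, hpc, hpr, hps⟩ := hPA p.1 p.2.1 p.2.2
      simp only [hTf, hρf, Sum.elim_inl, compl_compl]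
      refine ⟨hpr, ?_⟩
      obtain ⟨S', hS', hS'2⟩ := hclosed p.1
      refine le_trans (card_le_card ?_) hS'
      intro j hj
      rw [mem_S, mem_V] at hj
      obtain ⟨x, hx, hxj⟩ := hj
      have h1 := (piece_count hpc hps (hy0m p) x).1
      rw [if_pos hx] at h1
      have h2 : (0 : ℝ) < (1 - h) * ((p.2.1.card : ℝ) / 2 ^ (R p.2.1).card) := by
        have : (0 : ℝ) < p.2.1.card := by exact_mod_cast card_pos.2 hpc.nonempty
        positivity
      have h3 : (0 : ℝ) < ((p.2.1.filter fun y => gv g y = x).card : ℝ) := lt_of_lt_of_le h2 h1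
      have h4 : 0 < (p.2.1.filter fun y => gv g y = x).card := by exact_mod_cast h3
      obtain ⟨y, hy⟩ := card_pos.1 h4
      rw [mem_filter] at hy
      obtain ⟨j', hj', hne'⟩ := hS'2 y ((hPA p.1 p.2.1 p.2.2).1 hy.1)
      rw [hy.2, hxj, Pi.add_apply] at hne'
      have : j = j' := by
        by_contra hjj
        apply hne'
        rw [Pi.single_eq_of_ne (Ne.symm hjj), add_zero]
      rw [this]
      exact hj'
    · simp [hBf] at ht
  have hmass := mass_outside hgood hs0 hs hP5 hLc hq Tf ρf wf hwf0 hwfs Bf hBfp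
  -- the right-hand side
  have hnu : nu a (univ : Finset I) = 1 := by
    unfold nu
    rw [Finset.card_eq_one]
    refine ⟨0, ?_⟩
    ext y
    simp only [mem_filter, mem_univ, true_and, mem_singleton, forall_true_left]
    constructor
    · rintro ⟨h1, -⟩
      exact funext h1
    · rintro rfl
      exact ⟨fun _ => rfl, app_zero a⟩
  have hSle : ∀ z : I → ZMod 2, (S a b univ z).card ≤ 1 := by
    intro z
    rw [Finset.card_le_one]
    intro j hj j' hj'
    rw [mem_S, mem_V] at hj hj'
    obtain ⟨x, hx, hxj⟩ := hj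
    obtain ⟨x', hx', hxj'⟩ := hj'
    have hxx : x = x' := funext fun i => (hx i (mem_univ i)).trans (hx' i (mem_univ i)).symm
    rw [hxx, hxj'] at hxj
    have h1 := add_left_cancel hxj
    by_contra hne'
    have h2 := congrFun h1 j
    rw [Pi.single_eq_same, Pi.single_eq_of_ne hne'] at h2
    exact absurd h2 (by decide)
  have hSsum : ∑ z : I → ZMod 2, ((S a b univ z).card : ℝ) = (nu a ∅ : ℝ) * s := by
    have h1 : ∀ z : I → ZMod 2, ((S a b univ z).card : ℝ) =
        ∑ j : J, if app a z = b + Pi.single j 1 then (1 : ℝ) else 0 := by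
      intro z
      rw [← Finset.sum_filter, Finset.sum_const, nsmul_eq_mul, mul_one]
      congr 2
      ext j
      rw [mem_S, mem_V]
      simp only [mem_filter, mem_univ, true_and]
      constructor
      · rintro ⟨x, hx, hxj⟩
        rw [show z = x from funext fun i => (hx i (mem_univ i)).symm]
        exact hxj
      · intro hz
        exact ⟨z, fun i _ => rfl, hz⟩
    simp only [h1]
    rw [Finset.sum_comm]
    have h2 : ∀ j : J, (∑ z : I → ZMod 2, if app a z = b + Pi.single j 1 then (1 : ℝ) else 0) =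
        if (Pi.single j 1 : J → ZMod 2) ∈ V a b ∅ 0 then (nu a ∅ : ℝ) else 0 := by
      intro j
      rw [← Finset.sum_filter, Finset.sum_const, nsmul_eq_mul, mul_one]
      have h3 := card_cube_residual a b ∅ 0 (Pi.single j 1)
      have h4 : (univ.filter fun x : I → ZMod 2 => app a x = b + Pi.single j 1) =
          univ.filter fun x : I → ZMod 2 => Agree ∅ 0 x ∧ app a x = b + Pi.single j 1 := by
        ext x; simp [Agree]
      rw [h4, h3]
      split_ifs <;> simp
    simp only [h2]
    rw [← Finset.sum_filter, Finset.sum_const, nsmul_eq_mul, mul_comm]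
    congr 2
  have hrhs : ∑ t ∈ Bfᶜ, wf t * (nu a (Tf t) : ℝ) * ((S a b (Tf t) (ρf t)).card : ℝ) ≤
      1 / 8 * ((nu a ∅ : ℝ) * s) + (T * ∑ t, w t) / Φ0 := by
    have h1 : Bfᶜ = (univ : Finset (I → ZMod 2)).map ⟨Sum.inr, Sum.inr_injective⟩ := by
      ext t
      rcases t with p | z
      · simp [hBf]
      · simp [hBf]
    rw [h1, Finset.sum_map]
    simp only [Function.Embedding.coeFn_mk, hTf, hρf, hwf, Sum.elim_inr, hnu, Nat.cast_one, mul_one]
    have h2 : ∑ z : I → ZMod 2, E z ≤ T * ∑ t, w t := by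
      simp only [hE]
      rw [Finset.sum_comm, Finset.mul_sum]
      refine Finset.sum_le_sum fun t _ => ?_
      rw [← Finset.mul_sum, mul_comm]
      refine mul_le_mul_of_nonneg_right ?_ (hw0 t)
      have h3 : ∑ z : I → ZMod 2,
          (((A t \ (P t).biUnion id).filter fun y => gv g y = z).card : ℝ) =
          ((A t \ (P t).biUnion id).card : ℝ) := by
        rw [Finset.card_eq_sum_card_fiberwise (f := gv g) (t := univ)
          (s := A t \ (P t).biUnion id) (fun _ _ => mem_coe.2 (mem_univ _))]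
        push_cast
        rfl
      rw [h3]
      exact_mod_cast hrest t
    calc ∑ z : I → ZMod 2, (1 - Wt z / Λ) * ((S a b univ z).card : ℝ)
        ≤ ∑ z : I → ZMod 2, (1 / 8 * ((S a b univ z).card : ℝ) + E z / Φ0) := by
          refine Finset.sum_le_sum fun z _ => ?_
          have h3 := hdef z
          have h4 : (0 : ℝ) ≤ (S a b univ z).card := Nat.cast_nonneg _
          have h5 : ((S a b univ z).card : ℝ) ≤ 1 := by exact_mod_cast hSle z
          have h6 : 0 ≤ E z / Φ0 := div_nonneg (hE0 z) hΦ0pos.le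
          nlinarith [mul_le_mul_of_nonneg_right h3 h4]
      _ = 1 / 8 * ((nu a ∅ : ℝ) * s) + (∑ z : I → ZMod 2, E z) / Φ0 := by
          rw [Finset.sum_add_distrib, ← Finset.mul_sum, hSsum, Finset.sum_div]
      _ ≤ _ := by gcongr
  have hfin : (nu a ∅ : ℝ) * s ≤ 2 * (1 / 8 * ((nu a ∅ : ℝ) * s) + (T * ∑ t, w t) / Φ0) :=
    hmass.trans (by linarith)
  have hs1' : (1 : ℝ) ≤ s := by exact_mod_cast hs1
  have hnu0 : (0 : ℝ) ≤ nu a ∅ := Nat.cast_nonneg _
  have h10 : (nu a ∅ : ℝ) ≤ 4 * ((T * ∑ t, w t) / Φ0) := by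
    have h11 : (nu a ∅ : ℝ) ≤ (nu a ∅ : ℝ) * s := by nlinarith
    have h12 : 0 ≤ (T * ∑ t, w t) / Φ0 :=
      div_nonneg (mul_nonneg (Nat.cast_nonneg _) (Finset.sum_nonneg fun t _ => hw0 t)) hΦ0pos.le
    linarith
  have h13 : (2 : ℝ) ^ Fintype.card I ≤ 2 ^ Fintype.card J * nu a ∅ := by
    exact_mod_cast two_pow_le_nu a
  have h14 : (nu a ∅ : ℝ) * Φ0 ≤ 4 * (T * ∑ t, w t) := by
    rw [mul_div_assoc', le_div_iff₀ hΦ0pos] at h10
    exact h10
  have h15 : (Fintype.card U : ℝ) ^ Fintype.card I = 2 ^ Fintype.card I * Φ0 := by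
    rw [hΦ0]
    field_simp
  rw [h15]
  calc (2 : ℝ) ^ Fintype.card I * Φ0 ≤ 2 ^ Fintype.card J * nu a ∅ * Φ0 :=
        mul_le_mul_of_nonneg_right h13 hΦ0pos.le
    _ = 2 ^ Fintype.card J * (nu a ∅ * Φ0) := by ring
    _ ≤ 2 ^ Fintype.card J * (4 * (T * ∑ t, w t)) := mul_le_mul_of_nonneg_left h14 (by positivity)
    _ = _ := by ring

end Pool.Agent.H59.Seth
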