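import Mathlib

/-!
# Moments of random block gadgets on dense sets
-/

open Finset

namespace Pool.Agent.H59.Seth

variable {I U : Type*} [Fintype I] [DecidableEq I] [Fintype U] [DecidableEq U]

/-- the sign of a bit -/
def chi (a : ZMod 2) : ℝ := if a = 0 then 1 else -1

lemma chi_mul_self (a : ZMod 2) : chi a * chi a = 1 := by
  unfold chi; split_ifs <;> norm_num

lemma chi_add_one (a : ZMod 2) : chi (a + 1) = - chi a := by
  unfold chi
  have h : a = 0 ∨ a = 1 := by
    revert a; decide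
  rcases h with rfl | rfl
  · simp
  · have h2 : (1 : ZMod 2) + 1 = 0 := by decide
    simp [h2]

/-- every pattern on a set `C` of blocks of `R` has probability at most `2 ^ (-d |C|)` in `B` -/
def DenseOn (d : ℕ) (R : Finset I) (B : Finset (I → U)) : Prop :=
  ∀ C ⊆ R, ∀ u : I → U, (B.filter fun y => ∀ i ∈ C, y i = u i).card * 2 ^ (d * C.card) ≤ B.card

/-- the character sum -/
def X (g : I → U → ZMod 2) (J : Finset I) (B : Finset (I → U)) : ℝ :=
  ∑ y ∈ B, ∏ i ∈ J, chi (g i (y i))

/-- the twisted moments -/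
def Mom (J : Finset I) (B : Finset (I → U)) (j : ℕ) (O : I → Finset U) : ℝ :=
  ∑ g : I → U → ZMod 2, (∏ i ∈ J, ∏ u ∈ O i, chi (g i u)) * X g J B ^ j

/-- toggling a point -/
def tog (O : I → Finset U) (y : I → U) : I → Finset U := fun i => symmDiff (O i) {y i}

omit [Fintype U] in
lemma prod_symmDiff_singleton (h : U → ℝ) (hh : ∀ u, h u * h u = 1) (s : Finset U) (u : U) :
    ∏ v ∈ symmDiff s {u}, h v = (∏ v ∈ s, h v) * h u := by
  by_cases hu : u ∈ s
  · have : symmDiff s {u} = s.erase u := by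
      ext v
      simp only [Finset.mem_symmDiff, mem_singleton, mem_erase]
      constructor
      · rintro (⟨h1, h2⟩ | ⟨h1, h2⟩)
        · exact ⟨h2, h1⟩
        · exact absurd (h1 ▸ hu) h2
      · rintro ⟨h1, h2⟩
        exact Or.inl ⟨h2, h1⟩
    rw [this, ← Finset.mul_prod_erase s h hu]
    calc ∏ v ∈ s.erase u, h v = (h u * h u) * ∏ v ∈ s.erase u, h v := by rw [hh, one_mul]
      _ = _ := by ring
  · have : symmDiff s {u} = insert u s := by
      ext v
      simp only [Finset.mem_symmDiff, mem_singleton, mem_insert]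
      constructor
      · rintro (⟨h1, h2⟩ | ⟨h1, h2⟩)
        · exact Or.inr h1
        · exact Or.inl h1
      · rintro (h1 | h1)
        · exact Or.inr ⟨h1, h1 ▸ hu⟩
        · exact Or.inl ⟨h1, fun h2 => hu (h2 ▸ h1)⟩
    rw [this, Finset.prod_insert hu, mul_comm]

lemma Mom_succ (J : Finset I) (B : Finset (I → U)) (j : ℕ) (O : I → Finset U) :
    Mom J B (j + 1) O = ∑ y ∈ B, Mom J B j (tog O y) := by
  unfold Mom
  rw [Finset.sum_comm]
  refine Finset.sum_congr rfl fun g _ => ?_
  have h1 : ∀ y : I → U, ∏ i ∈ J, ∏ u ∈ tog O y i, chi (g i u) =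
      (∏ i ∈ J, ∏ u ∈ O i, chi (g i u)) * ∏ i ∈ J, chi (g i (y i)) := by
    intro y
    rw [← Finset.prod_mul_distrib]
    refine Finset.prod_congr rfl fun i _ => ?_
    exact prod_symmDiff_singleton (fun u => chi (g i u)) (fun u => chi_mul_self _) (O i) (y i)
  simp only [h1]
  rw [pow_succ, ← Finset.sum_mul, ← Finset.mul_sum]
  show _ * (X g J B ^ j * X g J B) = _ * X g J B * X g J B ^ j
  ring

lemma Mom_zero_eq_zero (J : Finset I) (B : Finset (I → U)) (O : I → Finset U) {i0 : I}
    (hi0 : i0 ∈ J) {u0 : U} (hu0 : u0 ∈ O i0) : Mom J B 0 O = 0 := by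
  unfold Mom
  simp only [pow_zero, mul_one]
  set F : (I → U → ZMod 2) → ℝ := fun g => ∏ i ∈ J, ∏ u ∈ O i, chi (g i u) with hF
  set fl : (I → U → ZMod 2) → (I → U → ZMod 2) := fun g i u =>
    if i = i0 ∧ u = u0 then g i u + 1 else g i u with hfl
  have hinv : Function.Involutive fl := by
    intro g
    funext i u
    simp only [hfl]
    split_ifs
    · rw [add_assoc]
      have : (1 : ZMod 2) + 1 = 0 := by decide
      rw [this, add_zero]
    · rfl
  have hneg : ∀ g, F (fl g) = - F g := by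
    intro g
    simp only [hF]
    rw [← Finset.mul_prod_erase J _ hi0, ← Finset.mul_prod_erase J _ hi0,
      ← Finset.mul_prod_erase (O i0) _ hu0, ← Finset.mul_prod_erase (O i0) _ hu0]
    have h1 : fl g i0 u0 = g i0 u0 + 1 := by simp [hfl]
    have h2 : ∏ x ∈ (O i0).erase u0, chi (fl g i0 x) = ∏ x ∈ (O i0).erase u0, chi (g i0 x) := by
      refine Finset.prod_congr rfl fun x hx => ?_
      have : x ≠ u0 := (mem_erase.1 hx).1
      simp [hfl, this]
    have h3 : ∏ x ∈ J.erase i0, ∏ u ∈ O x, chi (fl g x u) =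
        ∏ x ∈ J.erase i0, ∏ u ∈ O x, chi (g x u) := by
      refine Finset.prod_congr rfl fun x hx => ?_
      have : x ≠ i0 := (mem_erase.1 hx).1
      simp [hfl, this]
    rw [h1, h2, h3, chi_add_one]
    ring
  have h1 : ∑ g, F g = ∑ g, F (fl g) :=
    (Function.Bijective.sum_comp hinv.bijective F).symm
  have h2 : ∑ g, F g = - ∑ g, F g := by
    conv_lhs => rw [h1]
    rw [← Finset.sum_neg_distrib]
    exact Finset.sum_congr rfl fun g _ => hneg g
  show ∑ g, F g = 0
  linarith

omit [Fintype U] in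
lemma card_filter_mem_le {d Q : ℕ} {J : Finset I} {B : Finset (I → U)} (hB : DenseOn d J B)
    {O : I → Finset U} (hO : ∀ i ∈ J, (O i).card ≤ Q) {C : Finset I} (hC : C ⊆ J) :
    ((B.filter fun y => ∀ i ∈ C, y i ∈ O i).card : ℝ) * 2 ^ (d * C.card) ≤
      (Q : ℝ) ^ C.card * B.card := by
  classical
  rcases B.eq_empty_or_nonempty with rfl | ⟨y0, hy0⟩
  · simp
  set φ : (I → U) → (I → U) := fun y i => if i ∈ C then y i else y0 i with hφ
  set T : Finset (I → U) := Fintype.piFinset fun i => if i ∈ C then O i else {y0 i} with hT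
  have hmaps : ∀ y ∈ B.filter (fun y => ∀ i ∈ C, y i ∈ O i), φ y ∈ T := by
    intro y hy
    rw [mem_filter] at hy
    rw [hT, Fintype.mem_piFinset]
    intro i
    by_cases hi : i ∈ C
    · simp only [hφ, hi, if_true]; exact hy.2 i hi
    · simp only [hφ, hi, if_false]; exact mem_singleton_self _
  have hTc : (T.card : ℝ) ≤ (Q : ℝ) ^ C.card := by
    rw [hT, Fintype.card_piFinset]
    have h1 : ∀ i : I, (if i ∈ C then O i else {y0 i}).card = if i ∈ C then (O i).card else 1 := by
      intro i; split_ifs <;> simp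
    simp only [h1]
    rw [Finset.prod_ite_mem, univ_inter]
    push_cast
    calc ∏ i ∈ C, ((O i).card : ℝ) ≤ ∏ i ∈ C, (Q : ℝ) :=
          Finset.prod_le_prod (fun _ _ => Nat.cast_nonneg _) fun i hi => by
            exact_mod_cast hO i (hC hi)
      _ = (Q : ℝ) ^ C.card := by rw [Finset.prod_const]
  have hcard := Finset.card_eq_sum_card_fiberwise hmaps
  rw [hcard]
  push_cast
  rw [Finset.sum_mul]
  calc ∑ b ∈ T, (((B.filter fun y => ∀ i ∈ C, y i ∈ O i).filter fun y => φ y = b).card : ℝ) *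
        2 ^ (d * C.card) ≤ ∑ b ∈ T, (B.card : ℝ) := by
        refine Finset.sum_le_sum fun b _ => ?_
        have h2 := hB C hC b
        have h3 : ((B.filter fun y => ∀ i ∈ C, y i ∈ O i).filter fun y => φ y = b) ⊆
            B.filter fun y => ∀ i ∈ C, y i = b i := by
          intro y hy
          rw [mem_filter, mem_filter] at hy
          rw [mem_filter]
          refine ⟨hy.1.1, fun i hi => ?_⟩
          rw [← hy.2]
          simp [hφ, hi]
        have h4 := card_le_card h3
        have h5 : ((B.filter fun y => ∀ i ∈ C, y i ∈ O i).filter fun y => φ y = b).card *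
            2 ^ (d * C.card) ≤ B.card := (Nat.mul_le_mul_right _ h4).trans h2
        exact_mod_cast h5
    _ = (T.card : ℝ) * B.card := by rw [Finset.sum_const, nsmul_eq_mul]
    _ ≤ (Q : ℝ) ^ C.card * B.card := mul_le_mul_of_nonneg_right hTc (Nat.cast_nonneg _)

lemma sum_prod_tog_le {d Q e : ℕ} {J : Finset I} {B : Finset (I → U)} (hB : DenseOn d J B)
    (hQ : Q * 2 ^ (2 * e) ≤ 2 ^ d)
    {O : I → Finset U} (hO : ∀ i ∈ J, (O i).card ≤ Q) :
    ∑ y ∈ B, ∏ i ∈ J, ((1 / 2 : ℝ) ^ e) ^ (tog O y i).card ≤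
      B.card * (2 * (1 / 2 : ℝ) ^ e) ^ J.card * ∏ i ∈ J, ((1 / 2 : ℝ) ^ e) ^ (O i).card := by
  classical
  set β : ℝ := (1 / 2 : ℝ) ^ e with hβ
  have hβ0 : 0 < β := by positivity
  have hβ1 : β ≤ 1 := pow_le_one₀ (by norm_num) (by norm_num)
  have hpt : ∀ y : I → U, ∀ i, β ^ (tog O y i).card ≤
      ((if y i ∈ O i then β⁻¹ else 0) + β) * β ^ (O i).card := by
    intro y i
    unfold tog
    by_cases h : y i ∈ O i
    · have hs : symmDiff (O i) {y i} = (O i).erase (y i) := by
        ext v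
        simp only [Finset.mem_symmDiff, mem_singleton, mem_erase]
        constructor
        · rintro (⟨h1, h2⟩ | ⟨h1, h2⟩)
          · exact ⟨h2, h1⟩
          · exact absurd (h1 ▸ h) h2
        · rintro ⟨h1, h2⟩
          exact Or.inl ⟨h2, h1⟩
      rw [hs, card_erase_of_mem h, if_pos h]
      obtain ⟨k, hk⟩ : ∃ k, (O i).card = k + 1 :=
        ⟨(O i).card - 1, (Nat.succ_pred_eq_of_pos (card_pos.2 ⟨_, h⟩)).symm⟩
      rw [hk, Nat.add_sub_cancel, add_mul, pow_succ]
      have : β⁻¹ * (β ^ k * β) = β ^ k := by field_simp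
      rw [this]
      have h2 : 0 ≤ β * (β ^ k * β) := by positivity
      linarith
    · have hs : symmDiff (O i) {y i} = insert (y i) (O i) := by
        ext v
        simp only [Finset.mem_symmDiff, mem_singleton, mem_insert]
        constructor
        · rintro (⟨h1, h2⟩ | ⟨h1, h2⟩)
          · exact Or.inr h1
          · exact Or.inl h1
        · rintro (h1 | h1)
          · exact Or.inr ⟨h1, h1 ▸ h⟩
          · exact Or.inl ⟨h1, fun h2 => h (h2 ▸ h1)⟩
      rw [hs, card_insert_of_notMem h, if_neg h, zero_add, pow_succ, mul_comm]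
  calc ∑ y ∈ B, ∏ i ∈ J, β ^ (tog O y i).card
      ≤ ∑ y ∈ B, ∏ i ∈ J, (((if y i ∈ O i then β⁻¹ else 0) + β) * β ^ (O i).card) := by
        refine Finset.sum_le_sum fun y _ => ?_
        exact Finset.prod_le_prod (fun i _ => by positivity) fun i _ => hpt y i
    _ = (∑ y ∈ B, ∏ i ∈ J, ((if y i ∈ O i then β⁻¹ else 0) + β)) * ∏ i ∈ J, β ^ (O i).card := by
        rw [Finset.sum_mul]
        exact Finset.sum_congr rfl fun y _ => Finset.prod_mul_distrib
    _ ≤ (B.card * (2 * β) ^ J.card) * ∏ i ∈ J, β ^ (O i).card := by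
        refine mul_le_mul_of_nonneg_right ?_ (Finset.prod_nonneg fun i _ => by positivity)
        have hexp : ∀ y : I → U, ∏ i ∈ J, ((if y i ∈ O i then β⁻¹ else 0) + β) =
            ∑ C ∈ J.powerset, (if ∀ i ∈ C, y i ∈ O i then (β⁻¹) ^ C.card else 0) *
              β ^ (J \ C).card := by
          intro y
          rw [Finset.prod_add]
          refine Finset.sum_congr rfl fun C _ => ?_
          rw [Finset.prod_const]
          congr 1
          by_cases h : ∀ i ∈ C, y i ∈ O i
          · rw [if_pos h, Finset.prod_congr rfl (fun i hi => if_pos (h i hi)), Finset.prod_const]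
          · rw [if_neg h]
            push Not at h
            obtain ⟨i, hi, hi2⟩ := h
            exact Finset.prod_eq_zero hi (if_neg hi2)
        simp only [hexp]
        rw [Finset.sum_comm]
        have hterm : ∀ C ∈ J.powerset, ∑ y ∈ B, (if ∀ i ∈ C, y i ∈ O i then (β⁻¹) ^ C.card else 0) *
            β ^ (J \ C).card ≤ B.card * β ^ J.card := by
          intro C hC
          rw [mem_powerset] at hC
          rw [← Finset.sum_mul, ← Finset.sum_filter, Finset.sum_const, nsmul_eq_mul]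
          have h1 := card_filter_mem_le hB hO hC
          have h2 : (Q : ℝ) ≤ 2 ^ d * β ^ 2 := by
            have h3 : (Q : ℝ) * 2 ^ (2 * e) ≤ 2 ^ d := by exact_mod_cast hQ
            have h4 : β ^ 2 * 2 ^ (2 * e) = 1 := by
              rw [hβ, ← pow_mul, mul_comm e 2, ← mul_pow]; norm_num
            calc (Q : ℝ) = (Q : ℝ) * (β ^ 2 * 2 ^ (2 * e)) := by rw [h4, mul_one]
              _ = (Q * 2 ^ (2 * e)) * β ^ 2 := by ring
              _ ≤ 2 ^ d * β ^ 2 := mul_le_mul_of_nonneg_right h3 (by positivity)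
          have h5 : ((B.filter fun y => ∀ i ∈ C, y i ∈ O i).card : ℝ) ≤
              (β ^ 2) ^ C.card * B.card := by
            have h6 : (Q : ℝ) ^ C.card ≤ (2 ^ d * β ^ 2) ^ C.card :=
              pow_le_pow_left₀ (Nat.cast_nonneg _) h2 _
            have h7 : (0 : ℝ) < 2 ^ (d * C.card) := by positivity
            refine le_of_mul_le_mul_right ?_ h7
            calc _ ≤ (Q : ℝ) ^ C.card * B.card := h1
              _ ≤ (2 ^ d * β ^ 2) ^ C.card * B.card :=
                mul_le_mul_of_nonneg_right h6 (Nat.cast_nonneg _)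
              _ = _ := by rw [mul_pow, ← pow_mul]; ring
          calc ((B.filter fun y => ∀ i ∈ C, y i ∈ O i).card : ℝ) * (β⁻¹) ^ C.card *
                β ^ (J \ C).card
              ≤ ((β ^ 2) ^ C.card * B.card) * (β⁻¹) ^ C.card * β ^ (J \ C).card := by gcongr
            _ = B.card * (((β ^ 2) ^ C.card * (β⁻¹) ^ C.card) * β ^ (J \ C).card) := by ring
            _ = B.card * β ^ J.card := by
                congr 1
                rw [← mul_pow]
                have : β ^ 2 * β⁻¹ = β := by field_simp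
                rw [this, ← pow_add]
                congr 1
                rw [add_comm]
                exact Finset.card_sdiff_add_card_eq_card hC
        calc ∑ C ∈ J.powerset, ∑ y ∈ B, (if ∀ i ∈ C, y i ∈ O i then (β⁻¹) ^ C.card else 0) *
              β ^ (J \ C).card ≤ ∑ C ∈ J.powerset, (B.card : ℝ) * β ^ J.card :=
              Finset.sum_le_sum hterm
          _ = _ := by
              rw [Finset.sum_const, card_powerset, nsmul_eq_mul, mul_pow]
              push_cast
              ring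
    _ = _ := by ring

/-- the moment bound -/
lemma Mom_le {d Q e : ℕ} {J : Finset I} {B : Finset (I → U)} (hB : DenseOn d J B)
    (hQ : Q * 2 ^ (2 * e) ≤ 2 ^ d) (j : ℕ) :
    ∀ O : I → Finset U, (∀ i ∈ J, (O i).card + j ≤ Q) →
      Mom J B j O ≤ (Fintype.card (I → U → ZMod 2) : ℝ) *
        (B.card * (2 * (1 / 2 : ℝ) ^ e) ^ J.card) ^ j * ∏ i ∈ J, ((1 / 2 : ℝ) ^ e) ^ (O i).card := by
  classical
  induction j with
  | zero =>
    intro O _
    by_cases h : ∀ i ∈ J, O i = ∅
    · unfold Mom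
      have h1 : ∀ g : I → U → ZMod 2, (∏ i ∈ J, ∏ u ∈ O i, chi (g i u)) = 1 := by
        intro g
        refine Finset.prod_eq_one fun i hi => ?_
        rw [h i hi, Finset.prod_empty]
      have h2 : ∏ i ∈ J, ((1 / 2 : ℝ) ^ e) ^ (O i).card = 1 := by
        refine Finset.prod_eq_one fun i hi => ?_
        rw [h i hi, card_empty, pow_zero]
      simp only [h1, h2, pow_zero, mul_one]
      rw [Finset.sum_const, card_univ, nsmul_eq_mul, mul_one]
    · push Not at h
      obtain ⟨i0, hi0, hne⟩ := h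
      obtain ⟨u0, hu0⟩ := hne
      rw [Mom_zero_eq_zero J B O hi0 hu0]
      positivity
  | succ j ih =>
    intro O hO
    rw [Mom_succ]
    have h1 : ∀ y ∈ B, Mom J B j (tog O y) ≤ (Fintype.card (I → U → ZMod 2) : ℝ) *
        (B.card * (2 * (1 / 2 : ℝ) ^ e) ^ J.card) ^ j *
          ∏ i ∈ J, ((1 / 2 : ℝ) ^ e) ^ (tog O y i).card := by
      intro y _
      refine ih _ fun i hi => ?_
      have h2 : (tog O y i).card ≤ (O i).card + 1 := by
        unfold tog
        calc (symmDiff (O i) {y i}).card ≤ (O i ∪ {y i}).card :=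
              card_le_card Finset.symmDiff_subset_union
          _ ≤ (O i).card + 1 := (card_union_le _ _).trans (by simp)
      have := hO i hi
      omega
    have h2 : ∀ i ∈ J, (O i).card ≤ Q := fun i hi => by have := hO i hi; omega
    calc ∑ y ∈ B, Mom J B j (tog O y) ≤ ∑ y ∈ B, (Fintype.card (I → U → ZMod 2) : ℝ) *
          (B.card * (2 * (1 / 2 : ℝ) ^ e) ^ J.card) ^ j *
            ∏ i ∈ J, ((1 / 2 : ℝ) ^ e) ^ (tog O y i).card := Finset.sum_le_sum h1
      _ = (Fintype.card (I → U → ZMod 2) : ℝ) *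
          (B.card * (2 * (1 / 2 : ℝ) ^ e) ^ J.card) ^ j *
            ∑ y ∈ B, ∏ i ∈ J, ((1 / 2 : ℝ) ^ e) ^ (tog O y i).card := by rw [Finset.mul_sum]
      _ ≤ (Fintype.card (I → U → ZMod 2) : ℝ) *
          (B.card * (2 * (1 / 2 : ℝ) ^ e) ^ J.card) ^ j *
            (B.card * (2 * (1 / 2 : ℝ) ^ e) ^ J.card * ∏ i ∈ J, ((1 / 2 : ℝ) ^ e) ^ (O i).card) :=
          mul_le_mul_of_nonneg_left (sum_prod_tog_le hB hQ h2) (by positivity)
      _ = _ := by rw [pow_succ]; ring

lemma sum_X_pow_le {d q e : ℕ} {J : Finset I} {B : Finset (I → U)} (hB : DenseOn d J B)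
    (hq : q * 2 ^ (2 * e) ≤ 2 ^ d) :
    ∑ g : I → U → ZMod 2, X g J B ^ q ≤ (Fintype.card (I → U → ZMod 2) : ℝ) *
        (B.card * (2 * (1 / 2 : ℝ) ^ e) ^ J.card) ^ q := by
  have h := Mom_le hB hq q (fun _ => ∅) (by simp)
  unfold Mom at h
  simpa using h

/-- few gadgets have a large character sum -/
lemma card_bad_le {d q e : ℕ} {J : Finset I} (hJ : J.Nonempty) {B : Finset (I → U)}
    (hBne : B.Nonempty) (hB : DenseOn d J B)
    (hq : q * 2 ^ (2 * (e + 2)) ≤ 2 ^ d) (hev : Even q) :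
    ((univ.filter fun g : I → U → ZMod 2 =>
      (B.card : ℝ) * ((1 / 2 : ℝ) ^ e) ^ J.card < |X g J B|).card : ℝ) * 2 ^ q ≤
        Fintype.card (I → U → ZMod 2) := by
  classical
  set S := univ.filter fun g : I → U → ZMod 2 =>
      (B.card : ℝ) * ((1 / 2 : ℝ) ^ e) ^ J.card < |X g J B| with hS
  have h1 := sum_X_pow_le hB hq
  have hBpos : (0 : ℝ) < B.card := by exact_mod_cast card_pos.2 hBne
  set τ : ℝ := (B.card : ℝ) * ((1 / 2 : ℝ) ^ e) ^ J.card with hτ
  have hτ0 : 0 < τ := by positivity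
  have h2 : (S.card : ℝ) * τ ^ q ≤ ∑ g : I → U → ZMod 2, X g J B ^ q := by
    calc (S.card : ℝ) * τ ^ q = ∑ g ∈ S, τ ^ q := by rw [Finset.sum_const, nsmul_eq_mul]
      _ ≤ ∑ g ∈ S, X g J B ^ q := by
          refine Finset.sum_le_sum fun g hg => ?_
          rw [hS, mem_filter] at hg
          rw [← hev.pow_abs (X g J B)]
          exact pow_le_pow_left₀ hτ0.le hg.2.le _
      _ ≤ _ := Finset.sum_le_sum_of_subset_of_nonneg (subset_univ _) fun g _ _ =>
          hev.pow_nonneg _
  have h3 : (B.card : ℝ) * (2 * (1 / 2 : ℝ) ^ (e + 2)) ^ J.card ≤ τ * (1 / 2) := by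
    have h4 : (2 * (1 / 2 : ℝ) ^ (e + 2)) = (1 / 2) ^ e * (1 / 2) := by rw [pow_add]; ring
    rw [h4, mul_pow, hτ, ← mul_assoc]
    refine mul_le_mul_of_nonneg_left ?_ hτ0.le
    calc (1 / 2 : ℝ) ^ J.card ≤ (1 / 2 : ℝ) ^ 1 :=
          pow_le_pow_of_le_one (by norm_num) (by norm_num) (card_pos.2 hJ)
      _ = 1 / 2 := pow_one _
  have h5 : (S.card : ℝ) * τ ^ q ≤ Fintype.card (I → U → ZMod 2) * (τ * (1 / 2)) ^ q := by
    refine h2.trans (h1.trans ?_)
    refine mul_le_mul_of_nonneg_left ?_ (Nat.cast_nonneg _)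
    exact pow_le_pow_left₀ (by positivity) h3 _
  have h6 : (0 : ℝ) < τ ^ q := by positivity
  refine le_of_mul_le_mul_right ?_ h6
  calc (S.card : ℝ) * 2 ^ q * τ ^ q = (S.card * τ ^ q) * 2 ^ q := by ring
    _ ≤ (Fintype.card (I → U → ZMod 2) * (τ * (1 / 2)) ^ q) * 2 ^ q :=
        mul_le_mul_of_nonneg_right h5 (by positivity)
    _ = Fintype.card (I → U → ZMod 2) * ((τ * (1 / 2)) * 2) ^ q := by rw [mul_pow _ 2]; ring
    _ = _ := by congr 2; ring

end Pool.Agent.H59.Seth
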