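import Pool.Agent.H59.Seth.Block
import Pool.Agent.H73.Xor.Params

/-!
# Choice of the parameters
-/

open Finset Pool.Agent.H73.Xor

namespace Pool.Agent.H59.Seth

/-- logarithms are eventually small -/
lemma log_small (C : ℕ) : ∃ n0, ∀ n, n0 ≤ n → C * Nat.log 2 n ≤ n := by
  refine ⟨2 ^ (2 * (C + 1)), fun n hn => ?_⟩
  have hn0 : n ≠ 0 := by
    rintro rfl
    have : 0 < 2 ^ (2 * (C + 1)) := by positivity
    omega
  set L := Nat.log 2 n with hL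
  have h1 : 2 * (C + 1) ≤ L := Nat.le_log_of_pow_le (by norm_num) hn
  have h2 : 2 ^ L ≤ n := Nat.pow_log_le_self 2 hn0
  refine le_trans ?_ h2
  set h := L / 2 with hh
  have h3 : L ≤ 2 * h + 1 := by omega
  have h4 : 2 * h ≤ L := by omega
  have h5 : C + 1 ≤ h := by omega
  have h6 : h ≤ 2 ^ (h - 1) := by
    have := (h - 1).lt_two_pow_self
    omega
  have h7 : 2 * 2 ^ (h - 1) = 2 ^ h := by
    rw [← pow_succ']
    congr 1
    omega
  calc C * L ≤ h * (2 * h + 2) := Nat.mul_le_mul (by omega) (by omega)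
    _ ≤ (2 * h) * (2 * h) := by nlinarith
    _ ≤ 2 ^ h * 2 ^ h := Nat.mul_le_mul (by omega) (by omega)
    _ = 2 ^ (2 * h) := by rw [← pow_add]; ring_nf
    _ ≤ 2 ^ L := Nat.pow_le_pow_right (by norm_num) h4

lemma d_le {c lg : ℕ} (h : 1 ≤ lg) : (c + 3) * lg + c + 24 ≤ (2 * c + 27) * lg := by
  obtain ⟨l, rfl⟩ := Nat.exists_eq_add_of_le h
  nlinarith [Nat.zero_le (c * l)]

lemma loss_le {ε : ℝ} (hε : 0 < ε) {n m b d Q M r T H B lg : ℕ} (hQ1 : 1 ≤ Q)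
    (hQε : 4 ≤ ε * Q) (hTε : 12 ≤ ε * (T : ℝ)) (hH : (2 * (B + 2 : ℝ)) / ε ≤ H) (hlg1 : 1 ≤ lg)
    (hH2 : H * lg ≤ n) (hbB : b ≤ B * lg) (hb : b = d * Q) (hbpos : 0 < b) (hmb : m * b ≤ n)
    (hnmb : n < (m + 1) * b) (hsize : (M + 2 * r + 1) * T ≤ 3 * m) :
    (1 - ε) * n + ((M + 2 + d * m + b * r : ℕ) : ℝ) ≤ ((b * m : ℕ) : ℝ) := by
  have l1 : ((d * m : ℕ) : ℝ) ≤ ε / 4 * n := by
    have h1 : ((d * m * Q : ℕ) : ℝ) ≤ n := by
      have : d * m * Q ≤ n := by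
        calc d * m * Q = m * b := by rw [hb]; ring
          _ ≤ n := hmb
      exact_mod_cast this
    push_cast at h1 ⊢
    have h2 : (d : ℝ) * m * 4 ≤ (d : ℝ) * m * (ε * Q) := by gcongr
    have h3 : ε * ((d : ℝ) * m * Q) ≤ ε * n := mul_le_mul_of_nonneg_left h1 hε.le
    have h4 : (d : ℝ) * m * (ε * Q) = ε * ((d : ℝ) * m * Q) := by ring
    linarith
  have l2 : ((M + b * r : ℕ) : ℝ) ≤ ε / 4 * n := by
    have h1 : (M + b * r) * T ≤ 3 * n := by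
      have h0 : M + b * r ≤ b * (M + 2 * r + 1) := by
        have h01 : M ≤ b * M := Nat.le_mul_of_pos_left M hbpos
        have h02 : b * (M + 2 * r + 1) = b * M + b * r + (b * r + b) := by ring
        omega
      calc (M + b * r) * T ≤ (b * (M + 2 * r + 1)) * T := Nat.mul_le_mul_right _ h0
        _ = b * ((M + 2 * r + 1) * T) := by ring
        _ ≤ b * (3 * m) := Nat.mul_le_mul_left _ hsize
        _ = 3 * (m * b) := by ring
        _ ≤ 3 * n := Nat.mul_le_mul_left _ hmb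
    have h2 : ((M + b * r : ℕ) : ℝ) * T ≤ 3 * n := by exact_mod_cast h1
    have h3 : ((M + b * r : ℕ) : ℝ) * 12 ≤ ((M + b * r : ℕ) : ℝ) * (ε * T) := by gcongr
    have h4 : ε * (((M + b * r : ℕ) : ℝ) * T) ≤ ε * (3 * n) := mul_le_mul_of_nonneg_left h2 hε.le
    have h5 : ((M + b * r : ℕ) : ℝ) * (ε * T) = ε * (((M + b * r : ℕ) : ℝ) * T) := by ring
    linarith
  have l3 : ((b + 2 : ℕ) : ℝ) ≤ ε / 2 * n := by
    have h1 : ((H : ℝ)) * lg ≤ n := by exact_mod_cast hH2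
    have h2 := hH
    have h3 : (b : ℝ) ≤ B * lg := by exact_mod_cast hbB
    have h4 : (1 : ℝ) ≤ lg := by exact_mod_cast hlg1
    rw [div_le_iff₀ hε] at h2
    push_cast
    have h5 : 2 * (B + 2 : ℝ) * lg ≤ H * ε * lg := by gcongr
    have h6 : ε * ((H : ℝ) * lg) ≤ ε * n := mul_le_mul_of_nonneg_left h1 hε.le
    have h7 : (H : ℝ) * ε * lg = ε * ((H : ℝ) * lg) := by ring
    have h8 : 2 * (B + 2 : ℝ) * lg = 2 * (B * lg) + 4 * lg := by ring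
    linarith
  have l4 : (n : ℝ) ≤ ((b * m : ℕ) : ℝ) + b := by
    have : n ≤ b * m + b := by
      have := hnmb.le
      calc n ≤ (m + 1) * b := this
        _ = b * m + b := by ring
    exact_mod_cast this
  push_cast at l1 l2 l3 l4 ⊢
  linarith

theorem main (c : ℕ) (ε : ℝ) (hε : 0 < ε) : ∃ K n0 : ℕ, ∀ n, n0 ≤ n →
    ∀ 𝒜 : Finset (Finset (Fin n → Bool)), 𝒜.card ≤ 2 ^ n ^ c →
      ∃ F : Finset (Cl n), (∀ C ∈ F, C.card ≤ K * Nat.log 2 n) ∧ F.card ≤ n ^ K ∧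
        (∀ x, ∃ C ∈ F, ¬ Sat x C) ∧
        ∀ (N : ℕ) (cell : Fin N → Finset (Fin n → Bool)) (w : Fin N → ℝ),
          (∀ t, cell t ∈ 𝒜) → (∀ t, 0 ≤ w t) →
          (∀ x, ∑ t, (if x ∈ cell t then w t else 0) = 1) →
          (∀ t, ∃ F' ⊆ F, F'.card * (K * Nat.log 2 n) ≤ n ∧
            ∀ x ∈ cell t, ∃ C ∈ F', ¬ Sat x C) →
          (2 : ℝ) ^ ((1 - ε) * n) ≤ ∑ t, w t := by
  classical
  -- integer parameters
  obtain ⟨Q, hQ1, hQε⟩ : ∃ Q : ℕ, 1 ≤ Q ∧ 4 ≤ ε * Q := by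
    refine ⟨⌈4 / ε⌉₊ + 1, by omega, ?_⟩
    have h1 : 4 / ε ≤ ((⌈4 / ε⌉₊ + 1 : ℕ) : ℝ) := by
      push_cast
      linarith [Nat.le_ceil (4 / ε)]
    rw [div_le_iff₀ hε] at h1
    linarith
  obtain ⟨ℓ, hℓ2, hℓε⟩ : ∃ ℓ : ℕ, 2 ≤ ℓ ∧ 12 ≤ ε * 2 ^ ℓ := by
    refine ⟨⌈12 / ε⌉₊ + 2, by omega, ?_⟩
    have h1 : 12 / ε ≤ ((⌈12 / ε⌉₊ + 2 : ℕ) : ℝ) := by
      push_cast
      linarith [Nat.le_ceil (12 / ε)]
    have h2 : ((⌈12 / ε⌉₊ + 2 : ℕ) : ℝ) ≤ 2 ^ (⌈12 / ε⌉₊ + 2) := by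
      exact_mod_cast (Nat.lt_two_pow_self).le
    have h3 : 12 / ε ≤ 2 ^ (⌈12 / ε⌉₊ + 2) := h1.trans h2
    rw [div_le_iff₀ hε] at h3
    linarith
  obtain ⟨k, hk⟩ : ∃ k : ℕ, k = 2 ^ (2 * ℓ + 16) * (ℓ + 6) ^ 2 := ⟨_, rfl⟩
  have hkpos : 0 < k := by rw [hk]; positivity
  obtain ⟨B, hB⟩ : ∃ B : ℕ, B = (2 * c + 27) * Q := ⟨_, rfl⟩
  obtain ⟨n1, hn1⟩ := exists_system ℓ k hk.ge
  clear hk
  obtain ⟨H, hH⟩ : ∃ H : ℕ, (2 * (B + 2 : ℝ)) / ε ≤ H := ⟨_, Nat.le_ceil _⟩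
  obtain ⟨n2, hn2⟩ := log_small (H + (n1 + 2) * B)
  obtain ⟨K, hK⟩ : ∃ K : ℕ, K = 2 * (k * B) + 1 := ⟨_, rfl⟩
  refine ⟨K, max n2 4, fun n hn 𝒜 h𝒜 => ?_⟩
  have hn4 : 4 ≤ n := (le_max_right _ _).trans hn
  have hn2' := hn2 n ((le_max_left _ _).trans hn)
  obtain ⟨lg, hlg⟩ : ∃ lg, lg = Nat.log 2 n := ⟨_, rfl⟩
  rw [← hlg] at hn2' ⊢
  have hlg1 : 1 ≤ lg := hlg ▸ Nat.le_log_of_pow_le (by norm_num) (by omega)
  have hlgn : 2 ^ lg ≤ n := hlg ▸ Nat.pow_log_le_self 2 (by omega)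
  have hnlg : n < 2 ^ (lg + 1) := hlg ▸ Nat.lt_pow_succ_log_self (by norm_num) n
  obtain ⟨e, he⟩ : ∃ e, e = lg + 8 := ⟨_, rfl⟩
  obtain ⟨d, hd⟩ : ∃ d, d = (c + 3) * lg + c + 24 := ⟨_, rfl⟩
  obtain ⟨b, hb⟩ : ∃ b, b = d * Q := ⟨_, rfl⟩
  have hdle : d ≤ (2 * c + 27) * lg := by
    rw [hd]
    exact d_le hlg1
  have hbB : b ≤ B * lg := by
    calc b = d * Q := hb
      _ ≤ (2 * c + 27) * lg * Q := Nat.mul_le_mul_right _ hdle
      _ = B * lg := by rw [hB]; ring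
  have hdpos : 0 < d := by omega
  have hbpos : 0 < b := by rw [hb]; positivity
  obtain ⟨m, hm⟩ : ∃ m, m = n / b := ⟨_, rfl⟩
  have hmb : m * b ≤ n := hm ▸ Nat.div_mul_le_self n b
  have hnmb : n < (m + 1) * b := by
    have := Nat.lt_div_mul_add (a := n) hbpos
    rw [hm]; linarith
  -- the number of blocks is large
  have hmn1 : n1 + 1 ≤ m := by
    rw [hm, Nat.le_div_iff_mul_le hbpos]
    calc (n1 + 1) * b ≤ (n1 + 1) * (B * lg) := Nat.mul_le_mul_left _ hbB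
      _ ≤ (H + (n1 + 2) * B) * lg := by nlinarith [Nat.zero_le (H * lg), Nat.zero_le (B * lg)]
      _ ≤ n := hn2'
  obtain ⟨M, cc, K', L, D, r, hM, hLc, hq4, hD1, hDk, hP5, hsize, a, hgood⟩ :=
    hn1 m (by omega)
  have hM' : M ≤ n := by
    have h1 : M * 2 ^ 2 ≤ 3 * m := by
      refine le_trans ?_ hsize
      refine Nat.mul_le_mul (by omega) (Nat.pow_le_pow_right (by norm_num) (by omega))
    have h2 : m ≤ n := (Nat.le_mul_of_pos_right m hbpos).trans hmb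
    omega
  -- the hypotheses of the core theorem
  have hcard : (𝒜.card * 2 ^ n + 1) * 2 ^ n < 2 ^ (2 * (n ^ c + n + 1)) := by
    calc (𝒜.card * 2 ^ n + 1) * 2 ^ n ≤ (2 ^ n ^ c * 2 ^ n + 1) * 2 ^ n := by gcongr
      _ ≤ (2 ^ n ^ c * 2 ^ n + 2 ^ n ^ c * 2 ^ n) * 2 ^ n := by
          gcongr
          exact Nat.one_le_iff_ne_zero.2 (by positivity)
      _ = 2 ^ (n ^ c + 2 * n + 1) := by rw [pow_add, pow_add]; ring
      _ < 2 ^ (2 * (n ^ c + n + 1)) := by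
          refine Nat.pow_lt_pow_right (by norm_num) ?_
          omega
  have hqd : 2 * (n ^ c + n + 1) * 2 ^ (2 * (e + 2)) ≤ 2 ^ d := by
    have h1 : n ^ c ≤ n ^ (c + 1) := Nat.pow_le_pow_right (by omega) (by omega)
    have h2 : n ≤ n ^ (c + 1) := by
      calc n = n ^ 1 := (pow_one n).symm
        _ ≤ n ^ (c + 1) := Nat.pow_le_pow_right (by omega) (by omega)
    have h3 : 2 * (n ^ c + n + 1) ≤ 8 * n ^ (c + 1) := by omega
    have h4 : n ^ (c + 1) ≤ 2 ^ ((lg + 1) * (c + 1)) := by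
      rw [pow_mul]
      exact Nat.pow_le_pow_left hnlg.le _
    calc 2 * (n ^ c + n + 1) * 2 ^ (2 * (e + 2))
        ≤ 8 * 2 ^ ((lg + 1) * (c + 1)) * 2 ^ (2 * (e + 2)) :=
          Nat.mul_le_mul_right _ (h3.trans (Nat.mul_le_mul_left _ h4))
      _ = 2 ^ (3 + (lg + 1) * (c + 1) + 2 * (e + 2)) := by
          rw [pow_add, pow_add]; norm_num
      _ = 2 ^ d := by
          congr 1
          rw [hd, he]; ring
  have hme : (m : ℝ) * (1 / 2) ^ e ≤ 1 / 80 := by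
    have h1 : (m : ℝ) ≤ 2 ^ (lg + 1) := by
      have h2 : m ≤ n := (Nat.le_mul_of_pos_right m hbpos).trans hmb
      have h3 : m ≤ 2 ^ (lg + 1) := h2.trans hnlg.le
      exact_mod_cast h3
    calc (m : ℝ) * (1 / 2) ^ e ≤ 2 ^ (lg + 1) * (1 / 2) ^ e := by gcongr
      _ = 1 / 2 ^ 7 := by
          rw [he, one_div, inv_pow, pow_add, pow_add]
          field_simp
      _ ≤ 1 / 80 := by norm_num
  have hdb : d ≤ b := hb ▸ Nat.le_mul_of_pos_right d (by omega)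
  obtain ⟨F, hF1, hF2, hF3, hF4⟩ := core (e := e) hmb hbpos hM hgood hP5 hLc hq4
    (even_two_mul _) hqd hdb hme 𝒜 hcard
  have hkb : k * b ≤ k * B * lg := by
    calc k * b ≤ k * (B * lg) := Nat.mul_le_mul_left _ hbB
      _ = k * B * lg := by ring
  refine ⟨F, fun C hC => ?_, ?_, hF3, fun N cell w hcell hw0 htot hclosed => ?_⟩
  · refine (hF1 C hC).trans (hkb.trans ?_)
    exact Nat.mul_le_mul_right _ (by omega)
  · calc F.card ≤ M * 2 ^ (k * b) := hF2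
      _ ≤ n * 2 ^ (k * B * lg) := Nat.mul_le_mul hM' (Nat.pow_le_pow_right (by norm_num) hkb)
      _ ≤ n * n ^ (k * B) := by
          refine Nat.mul_le_mul_left _ ?_
          rw [mul_comm, pow_mul]
          exact Nat.pow_le_pow_left hlgn _
      _ = n ^ (k * B + 1) := by rw [pow_succ]; ring
      _ ≤ n ^ K := Nat.pow_le_pow_right (by omega) (by omega)
  · have hkey := hF4 N cell w hcell hw0 htot (by
      intro t
      obtain ⟨F', hF', hc, hv⟩ := hclosed t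
      refine ⟨F', hF', ?_, hv⟩
      by_contra hcon
      push Not at hcon
      have h1 : (D + 1) * (K * lg) ≤ n := (Nat.mul_le_mul_right _ hcon).trans hc
      have h2 : n < (m + 1) * b := hnmb
      have h3 : (m + 1) * b ≤ 2 * (D * k) * b := Nat.mul_le_mul_right _ (by omega)
      have h4 : 2 * (D * k) * b ≤ D * (K * lg) := by
        calc 2 * (D * k) * b = 2 * D * (k * b) := by ring
          _ ≤ 2 * D * (k * B * lg) := Nat.mul_le_mul_left _ hkb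
          _ = D * (2 * (k * B) * lg) := by ring
          _ ≤ D * (K * lg) := Nat.mul_le_mul_left _ (Nat.mul_le_mul_right _ (by omega))
      have h5 : D * (K * lg) ≤ (D + 1) * (K * lg) := Nat.mul_le_mul_right _ (by omega)
      omega)
    have hexp : (1 - ε) * n + ((M + 2 + d * m + b * r : ℕ) : ℝ) ≤ ((b * m : ℕ) : ℝ) :=
      loss_le hε (T := 2 ^ ℓ) hQ1 hQε (by push_cast; exact hℓε) hH hlg1
        (le_trans (Nat.mul_le_mul_right _ (by omega)) hn2') hbB hb hbpos hmb hnmb hsize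
    have h2pos : (0 : ℝ) < 2 ^ (M + 2 + d * m + b * r) := by positivity
    have h6 : (2 : ℝ) ^ ((1 - ε) * n) * 2 ^ (M + 2 + d * m + b * r) ≤ 2 ^ (b * m) := by
      rw [← Real.rpow_natCast 2 (M + 2 + d * m + b * r), ← Real.rpow_natCast 2 (b * m),
        ← Real.rpow_add (by norm_num)]
      exact Real.rpow_le_rpow_of_exponent_le (by norm_num) hexp
    refine le_of_mul_le_mul_right ?_ h2pos
    rw [mul_comm (∑ t, w t)]
    exact h6.trans hkey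

end Pool.Agent.H59.Seth
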